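import Mathlib

set_option autoImplicit false

/-! Definitions for the Leonard triples of `MP_f4f39d_al`. -/

namespace Pool.Agent.helper48.Leonard

open Module

/-- A square matrix is irreducible tridiagonal if all entries `(i,j)` with `|i-j| > 1` are zero and
all entries `(i,i+1)` and `(i+1,i)` are nonzero. -/
def IrredTridiagonal {K : Type*} [Zero K] {n : ℕ} (M : Matrix (Fin n) (Fin n) K) : Prop :=
  (∀ i j : Fin n, (i : ℕ) + 1 < j ∨ (j : ℕ) + 1 < i → M i j = 0) ∧
    ∀ i j : Fin n, (i : ℕ) + 1 = j ∨ (j : ℕ) + 1 = i → M i j ≠ 0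

/-- There is a basis of `V` in which `X` is represented by a diagonal matrix and `Y` and `Z` are
each represented by an irreducible tridiagonal matrix. -/
def HasLeonardBasis (K : Type*) {V : Type*} [Field K] [AddCommGroup V] [Module K V]
    (X Y Z : V →ₗ[K] V) : Prop :=
  ∃ (n : ℕ) (b : Basis (Fin n) K V), (LinearMap.toMatrix b b X).IsDiag ∧
    IrredTridiagonal (LinearMap.toMatrix b b Y) ∧ IrredTridiagonal (LinearMap.toMatrix b b Z)

/-- Leonard triples on a vector space `V`. -/
def IsLeonardTriple (K : Type*) {V : Type*} [Field K] [AddCommGroup V] [Module K V]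
    (X Y Z : V →ₗ[K] V) : Prop :=
  HasLeonardBasis K X Y Z ∧ HasLeonardBasis K Y Z X ∧ HasLeonardBasis K Z X Y

variable (K : Type*) [Field K]

/-- the matrix `A`, with `A_{i,i+1} = d-i` and `A_{i+1,i} = i+1` -/
def mA (d : ℕ) : Matrix (Fin (d + 1)) (Fin (d + 1)) K :=
  Matrix.of fun i j => if (i : ℕ) + 1 = (j : ℕ) then (d : K) - ((i : ℕ) : K) else
    if (j : ℕ) + 1 = (i : ℕ) then ((j : ℕ) : K) + 1 else 0

/-- the matrix `A* = diag(d, d-2, …, -d)` -/
def mB (d : ℕ) : Matrix (Fin (d + 1)) (Fin (d + 1)) K :=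
  Matrix.diagonal fun i => (d : K) - 2 * ((i : ℕ) : K)

end Pool.Agent.helper48.Leonard
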