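import Mathlib
import Pool.Agent.helper48.LeonardDefs

set_option autoImplicit false

/-! Basic definitions and the `sl₂` basis lemma for the Leonard triples of `MP_f4f39d_al`. -/

namespace Pool.Agent.helper48.Leonard

open Matrix Module

variable (K : Type*) [Field K]

/-! ## sl₂ triples and bases -/

section sl2

variable {K} {V : Type*} [AddCommGroup V] [Module K V]

/-- If `e`, `h` satisfy `he - eh = 2e` on a nonzero finite dimensional space in characteristic
zero then `e` has a kernel vector which is an eigenvector of `h`. -/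
lemma exists_primitive [IsAlgClosed K] [CharZero K] [FiniteDimensional K V] [Nontrivial V]
    (h e : End K V) (he : h * e - e * h = (2 : K) • e) :
    ∃ (v : V) (μ : K), v ≠ 0 ∧ e v = 0 ∧ h v = μ • v := by
  have hker : LinearMap.ker e ≠ ⊥ := by
    intro hk
    have hinj : Function.Injective e := LinearMap.ker_eq_bot.1 hk
    have hbij := (LinearMap.injective_iff_surjective (f := e)).1 hinj
    let φ := LinearEquiv.ofBijective e ⟨hinj, hbij⟩
    have h1 : e * (φ.symm : V →ₗ[K] V) = 1 := by
      ext v
      exact φ.apply_symm_apply v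
    have h2 : h - e * h * (φ.symm : V →ₗ[K] V) = (2 : K) • 1 := by
      have := congrArg (fun x => x * (φ.symm : V →ₗ[K] V)) he
      simp only [sub_mul, smul_mul_assoc, h1] at this
      rw [mul_assoc, h1, mul_one] at this
      exact this
    have h3 := congrArg (LinearMap.trace K V) h2
    have h4 : (φ.symm : V →ₗ[K] V) * e = 1 := by
      ext v
      exact φ.symm_apply_apply v
    have h5 : LinearMap.trace K V (e * h * (φ.symm : V →ₗ[K] V)) = LinearMap.trace K V h := by
      rw [mul_assoc, LinearMap.trace_mul_comm, mul_assoc, h4, mul_one]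
    rw [map_sub, h5, sub_self, map_smul, LinearMap.trace_one] at h3
    have h6 : (finrank K V : K) ≠ 0 := by
      exact_mod_cast (finrank_pos (R := K) (M := V)).ne'
    simp [h6] at h3
  let W := LinearMap.ker e
  have : Nontrivial W := (Submodule.nontrivial_iff_ne_bot).2 hker
  have hinv : ∀ w ∈ W, h w ∈ W := by
    intro w hw
    have hw' : e w = 0 := hw
    have := congrArg (fun x : End K V => x w) he
    simp only [LinearMap.sub_apply, Module.End.mul_apply, LinearMap.smul_apply, hw', map_zero,
      smul_zero, zero_sub, neg_eq_zero] at this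
    exact this
  obtain ⟨μ, hμ⟩ := Module.End.exists_eigenvalue (h.restrict hinv)
  obtain ⟨w, hw⟩ := hμ.exists_hasEigenvector
  refine ⟨w, μ, ?_, w.2, ?_⟩
  · intro h0
    exact hw.2 (Subtype.ext h0)
  · have := hw.apply_eq_smul
    have := congrArg Subtype.val this
    simpa using this

section chain

variable (h e f : End K V) (v : V) (μ : K)

/-- the vectors `f^n v` -/
def psi (f : End K V) (v : V) (n : ℕ) : V := (f ^ n) v

lemma f_psi (n : ℕ) : f (psi f v n) = psi f v (n + 1) := by
  simp [psi, pow_succ', Module.End.mul_apply]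

variable {h e f v μ}

lemma h_psi (hf : h * f - f * h = -((2 : K) • f)) (hv : h v = μ • v) (n : ℕ) :
    h (psi f v n) = (μ - 2 * n) • psi f v n := by
  induction n with
  | zero => simpa [psi] using hv
  | succ n ih =>
    have := congrArg (fun x : End K V => x (psi f v n)) hf
    simp only [LinearMap.sub_apply, Module.End.mul_apply, LinearMap.neg_apply,
      LinearMap.smul_apply, ih, map_smul, f_psi] at this
    rw [sub_eq_iff_eq_add] at this
    rw [this]
    push_cast
    module

lemma e_psi (hf : h * f - f * h = -((2 : K) • f)) (hef : e * f - f * e = h)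
    (hv : h v = μ • v) (hev : e v = 0) (n : ℕ) :
    e (psi f v (n + 1)) = ((n + 1) * (μ - n)) • psi f v n := by
  induction n with
  | zero =>
    have := congrArg (fun x : End K V => x v) hef
    simp only [LinearMap.sub_apply, Module.End.mul_apply, hev, map_zero, sub_zero, hv] at this
    simp [psi, this]
  | succ n ih =>
    have := congrArg (fun x : End K V => x (psi f v (n + 1))) hef
    simp only [LinearMap.sub_apply, Module.End.mul_apply, ih, map_smul, f_psi,
      h_psi hf hv] at this
    rw [sub_eq_iff_eq_add] at this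
    rw [this]
    push_cast
    module

end chain

/-- Structure of an irreducible `sl₂` representation of dimension `d+1`. -/
lemma sl2_basis [IsAlgClosed K] [CharZero K] [FiniteDimensional K V] {d : ℕ}
    (hd : finrank K V = d + 1) (h e f : End K V)
    (he : h * e - e * h = (2 : K) • e) (hf : h * f - f * h = -((2 : K) • f))
    (hef : e * f - f * e = h)
    (irr : ∀ W : Submodule K V, (∀ v ∈ W, h v ∈ W) → (∀ v ∈ W, e v ∈ W) →
      (∀ v ∈ W, f v ∈ W) → W ≠ ⊥ → W = ⊤) :
    ∃ (b : Basis (Fin (d + 1)) K V) (v : V), (∀ i : Fin (d + 1), b i = psi f v i) ∧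
      psi f v (d + 1) = 0 ∧
      (∀ n : ℕ, h (psi f v n) = ((d : K) - 2 * n) • psi f v n) ∧ e v = 0 ∧
      (∀ n : ℕ, e (psi f v (n + 1)) = (((n : K) + 1) * ((d : K) - n)) • psi f v n) ∧
      LinearMap.toMatrix b b h = mB K d ∧
      LinearMap.toMatrix b b e = Matrix.of (fun i j : Fin (d + 1) =>
        if (i : ℕ) + 1 = (j : ℕ) then ((j : ℕ) : K) * ((d : K) + 1 - ((j : ℕ) : K)) else 0) ∧
      LinearMap.toMatrix b b f = Matrix.of (fun i j : Fin (d + 1) =>
        if (j : ℕ) + 1 = (i : ℕ) then (1 : K) else 0) := by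
  have hnt : Nontrivial V := by
    apply Module.nontrivial_of_finrank_pos (R := K)
    omega
  obtain ⟨v, μ, hv0, hev, hhv⟩ := exists_primitive h e he
  have hh := h_psi (K := K) (v := v) hf hhv
  have hee := e_psi (K := K) hf hef hhv hev
  -- independence of the nonzero ones
  have hind : ∀ N : ℕ, (∀ n < N, psi f v n ≠ 0) →
      LinearIndependent K (fun i : Fin N => psi f v i) := by
    intro N hN
    apply Module.End.eigenvectors_linearIndependent' h (fun i : Fin N => μ - 2 * (i : K))
    · intro i j hij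
      have h1 : μ - 2 * (i : K) = μ - 2 * (j : K) := hij
      have h2 : ((i : ℕ) : K) = ((j : ℕ) : K) := by
        have h3 : (2 : K) * ((i : ℕ) : K) = 2 * ((j : ℕ) : K) := by linear_combination -h1
        exact mul_left_cancel₀ two_ne_zero h3
      exact Fin.ext (by exact_mod_cast h2)
    · intro i
      rw [Module.End.hasEigenvector_iff, Module.End.mem_eigenspace_iff]
      exact ⟨hh i, hN i i.2⟩
  have hex : ∃ n, psi f v n = 0 := by
    by_contra hcon
    push Not at hcon
    have h1 := (hind (d + 2) (fun n _ => hcon n)).fintype_card_le_finrank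
    rw [Fintype.card_fin, hd] at h1
    omega
  classical
  obtain ⟨N, hN, hmin⟩ : ∃ N, psi f v N = 0 ∧ ∀ n < N, psi f v n ≠ 0 :=
    ⟨Nat.find hex, Nat.find_spec hex, fun n hn => Nat.find_min hex hn⟩
  have hN0 : 0 < N := by
    rcases Nat.eq_zero_or_pos N with h0 | h0
    · subst h0
      exact absurd hN (by simpa [psi] using hv0)
    · exact h0
  have hli := hind N hmin
  have hle : N ≤ d + 1 := by
    have h1 := hli.fintype_card_le_finrank
    rwa [Fintype.card_fin, hd] at h1
  have hW : Submodule.span K (Set.range (fun i : Fin N => psi f v i)) = ⊤ := by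
    have hmem : ∀ n, psi f v n = 0 ∨ n < N →
        psi f v n ∈ Submodule.span K (Set.range (fun i : Fin N => psi f v i)) := by
      intro n hn
      rcases hn with hn | hn
      · rw [hn]; exact Submodule.zero_mem _
      · exact Submodule.subset_span ⟨⟨n, hn⟩, rfl⟩
    have key : ∀ g : End K V, (∀ n < N, g (psi f v n) ∈
        Submodule.span K (Set.range (fun i : Fin N => psi f v i))) →
        ∀ w ∈ Submodule.span K (Set.range (fun i : Fin N => psi f v i)),
          g w ∈ Submodule.span K (Set.range (fun i : Fin N => psi f v i)) := by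
      intro g hg w hw
      induction hw using Submodule.span_induction with
      | mem x hx => obtain ⟨i, rfl⟩ := hx; exact hg i i.2
      | zero => simp
      | add x y _ _ hx hy => rw [map_add]; exact Submodule.add_mem _ hx hy
      | smul a x _ hx => rw [map_smul]; exact Submodule.smul_mem _ _ hx
    apply irr
    · apply key
      intro n hn
      rw [hh]
      exact Submodule.smul_mem _ _ (hmem n (Or.inr hn))
    · apply key
      intro n hn
      match n with
      | 0 => simp [psi, hev]
      | (n + 1) =>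
        rw [hee]
        exact Submodule.smul_mem _ _ (hmem n (Or.inr (by omega)))
    · apply key
      intro n hn
      rw [f_psi]
      rcases Nat.lt_or_ge (n + 1) N with h1 | h1
      · exact hmem _ (Or.inr h1)
      · have : n + 1 = N := by omega
        exact hmem _ (Or.inl (this ▸ hN))
    · intro hbot
      have : psi f v 0 ∈ Submodule.span K (Set.range (fun i : Fin N => psi f v i)) :=
        hmem 0 (Or.inr hN0)
      rw [hbot, Submodule.mem_bot] at this
      exact hmin 0 hN0 this
  have hge : d + 1 ≤ N := by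
    have h1 := finrank_range_le_card (R := K) (fun i : Fin N => psi f v i)
    rw [Set.finrank, hW, finrank_top, hd, Fintype.card_fin] at h1
    exact h1
  have hNd : N = d + 1 := le_antisymm hle hge
  subst hNd
  have hμ : μ = d := by
    have h1 := hee d
    rw [hN, map_zero] at h1
    have h2 := (smul_eq_zero.1 h1.symm).resolve_right (hmin d (by omega))
    rcases mul_eq_zero.1 h2 with h3 | h3
    · exact absurd h3 (by exact_mod_cast Nat.succ_ne_zero d)
    · linear_combination h3
  subst hμ
  let b := basisOfLinearIndependentOfCardEqFinrank hli (by rw [Fintype.card_fin, hd])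
  have hb : ∀ i, b i = psi f v i := fun i => by
    simp [b, coe_basisOfLinearIndependentOfCardEqFinrank]
  refine ⟨b, v, hb, hN, hh, hev, hee, ?_, ?_, ?_⟩
  · ext i j
    rw [LinearMap.toMatrix_apply, hb, hh, ← hb, map_smul, Basis.repr_self]
    by_cases hij : i = j
    · subst hij; simp [mB]
    · simp [mB, Matrix.diagonal_apply_ne _ hij, Ne.symm hij]
  · ext i j
    rw [LinearMap.toMatrix_apply, hb]
    obtain ⟨j, hj⟩ := j
    match j with
    | 0 => simp [psi, hev]
    | (j + 1) =>
      have hj' : j < d + 1 := by omega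
      rw [hee, show psi f v j = b ⟨j, hj'⟩ from (hb ⟨j, hj'⟩).symm, map_smul, Basis.repr_self]
      by_cases hij : (i : ℕ) = j
      · have : i = ⟨j, hj'⟩ := Fin.ext hij
        subst this
        simp
      · have : (⟨j, hj'⟩ : Fin (d + 1)) ≠ i := fun h => hij (by rw [← h])
        simp [this, hij]
  · ext i j
    rw [LinearMap.toMatrix_apply, hb, f_psi]
    rcases Nat.lt_or_ge ((j : ℕ) + 1) (d + 1) with h1 | h1
    · rw [show psi f v ((j : ℕ) + 1) = b ⟨(j : ℕ) + 1, h1⟩ from (hb ⟨(j : ℕ) + 1, h1⟩).symm,
        Basis.repr_self]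
      by_cases hij : (j : ℕ) + 1 = i
      · have : i = ⟨(j : ℕ) + 1, h1⟩ := Fin.ext hij.symm
        subst this
        simp
      · have : (⟨(j : ℕ) + 1, h1⟩ : Fin (d + 1)) ≠ i := fun h => hij (by rw [← h])
        simp [this, hij]
    · have h2 : (j : ℕ) + 1 = d + 1 := by omega
      rw [h2, hN]
      have : ¬ ((j : ℕ) + 1 = i) := by omega
      simp [this]

end sl2

/-! ## Tridiagonal matrices and sequences indexed by `ℕ` -/

section tri

variable {K} {d : ℕ}

/-- extension of a vector by zero -/
def ex (v : Fin (d + 1) → K) (n : ℕ) : K := if h : n < d + 1 then v ⟨n, h⟩ else 0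

/-- lower entries -/
def lo (M : Matrix (Fin (d + 1)) (Fin (d + 1)) K) (n : ℕ) : K :=
  if h : 0 < n ∧ n < d + 1 then M ⟨n, h.2⟩ ⟨n - 1, by omega⟩ else 0

/-- diagonal entries -/
def di (M : Matrix (Fin (d + 1)) (Fin (d + 1)) K) (n : ℕ) : K :=
  if h : n < d + 1 then M ⟨n, h⟩ ⟨n, h⟩ else 0

/-- upper entries -/
def up (M : Matrix (Fin (d + 1)) (Fin (d + 1)) K) (n : ℕ) : K :=
  if h : n + 1 < d + 1 then M ⟨n, by omega⟩ ⟨n + 1, h⟩ else 0

lemma lo_zero (M : Matrix (Fin (d + 1)) (Fin (d + 1)) K) : lo M 0 = 0 := by simp [lo]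

lemma up_last (M : Matrix (Fin (d + 1)) (Fin (d + 1)) K) : up M d = 0 := by simp [up]

/-- vanishing off the three diagonals -/
def Tri (M : Matrix (Fin (d + 1)) (Fin (d + 1)) K) : Prop :=
  ∀ i j : Fin (d + 1), (i : ℕ) + 1 < j ∨ (j : ℕ) + 1 < i → M i j = 0

lemma sum_pred (g : Fin (d + 1) → K) (i : ℕ) (hi : i < d + 1) :
    (∑ j : Fin (d + 1), (if (j : ℕ) + 1 = i then g j else 0)) =
      if 0 < i then ex g (i - 1) else 0 := by
  split_ifs with h
  · rw [Finset.sum_eq_single (⟨i - 1, by omega⟩ : Fin (d + 1))]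
    · have h1 : i - 1 + 1 = i := by omega
      have h2 : i - 1 < d + 1 := by omega
      simp [h1, ex, h2]
    · intro j _ hj
      rw [if_neg]
      intro h1
      exact hj (Fin.ext (by simp; omega))
    · intro h1; exact absurd (Finset.mem_univ _) h1
  · apply Finset.sum_eq_zero
    intro j _
    rw [if_neg (by omega)]

lemma sum_succ (g : Fin (d + 1) → K) (i : ℕ) (hi : i < d + 1) :
    (∑ j : Fin (d + 1), (if i + 1 = (j : ℕ) then g j else 0)) = ex g (i + 1) := by
  by_cases h : i + 1 < d + 1
  · rw [Finset.sum_eq_single (⟨i + 1, h⟩ : Fin (d + 1))]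
    · simp [ex, h]
    · intro j _ hj
      rw [if_neg]
      intro h1
      exact hj (Fin.ext (by simp; omega))
    · intro h1; exact absurd (Finset.mem_univ _) h1
  · have h2 : ¬ (i < d) := by omega
    rw [ex, dif_neg h]
    apply Finset.sum_eq_zero
    intro j _
    rw [if_neg (by omega)]

lemma mulVec_tri {M : Matrix (Fin (d + 1)) (Fin (d + 1)) K} (hM : Tri M) (v : Fin (d + 1) → K)
    (i : ℕ) (hi : i < d + 1) :
    (M.mulVec v) ⟨i, hi⟩ = lo M i * ex v (i - 1) + di M i * ex v i + up M i * ex v (i + 1) := by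
  have h1 : ∀ j : Fin (d + 1), M ⟨i, hi⟩ j * v j =
      (if (j : ℕ) + 1 = i then M ⟨i, hi⟩ j * v j else 0) +
      (if j = ⟨i, hi⟩ then M ⟨i, hi⟩ j * v j else 0) +
      (if i + 1 = (j : ℕ) then M ⟨i, hi⟩ j * v j else 0) := by
    intro j
    rcases lt_trichotomy (j : ℕ) i with h | h | h
    · have h2 : j ≠ ⟨i, hi⟩ := fun h' => by simp [h'] at h
      have h3 : ¬ (i + 1 = (j : ℕ)) := by omega
      by_cases h4 : (j : ℕ) + 1 = i
      · simp [h2, h3, h4]
      · have h5 : M ⟨i, hi⟩ j = 0 := hM _ _ (Or.inr (by simp; omega))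
        simp [h5]
    · have h2 : j = ⟨i, hi⟩ := Fin.ext h
      have h3 : ¬ (i + 1 = (j : ℕ)) := by omega
      have h4 : ¬ ((j : ℕ) + 1 = i) := by omega
      simp [h2]
    · have h2 : j ≠ ⟨i, hi⟩ := fun h' => by simp [h'] at h
      have h3 : ¬ ((j : ℕ) + 1 = i) := by omega
      by_cases h4 : i + 1 = (j : ℕ)
      · simp [h2, h3, h4]
      · have h5 : M ⟨i, hi⟩ j = 0 := hM _ _ (Or.inl (by simp; omega))
        simp [h5]
  rw [Matrix.mulVec, dotProduct]
  rw [Finset.sum_congr rfl (fun j _ => h1 j), Finset.sum_add_distrib, Finset.sum_add_distrib,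
    sum_pred (fun j => M ⟨i, hi⟩ j * v j) i hi, sum_succ (fun j => M ⟨i, hi⟩ j * v j) i hi,
    Finset.sum_ite_eq' Finset.univ (⟨i, hi⟩ : Fin (d + 1)) (fun j => M ⟨i, hi⟩ j * v j)]
  congr 1
  · congr 1
    · by_cases h : 0 < i
      · have h2 : i - 1 < d + 1 := by omega
        simp [lo, ex, h, hi, h2]
      · simp [lo, h]
    · simp [di, ex, hi]
  · by_cases h : i < d
    · simp [up, ex, h]
    · simp [up, ex, h]

end tri

/-! ## The standard module -/

section std

variable {K} {d : ℕ}

@[simp] lemma ex_val (v : Fin (d + 1) → K) (i : Fin (d + 1)) : ex v i = v i := by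
  unfold ex
  rw [dif_pos i.2]

lemma ex_lt (v : Fin (d + 1) → K) (n : ℕ) (h : n < d + 1) : ex v n = v ⟨n, h⟩ := by
  simp [ex, h]

lemma ex_add (v w : Fin (d + 1) → K) (n : ℕ) : ex (v + w) n = ex v n + ex w n := by
  unfold ex; split_ifs <;> simp

lemma ex_smul (c : K) (v : Fin (d + 1) → K) (n : ℕ) : ex (c • v) n = c * ex v n := by
  unfold ex; split_ifs <;> simp

/-- `e` -/
def oE (K : Type*) [Field K] (d : ℕ) : End K (Fin (d + 1) → K) where
  toFun v := fun i => ((d : K) - ((i : ℕ) : K)) * ex v ((i : ℕ) + 1)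
  map_add' v w := by ext i; simp only [ex_add, Pi.add_apply]; ring
  map_smul' c v := by
    ext i; simp only [ex_smul, Pi.smul_apply, RingHom.id_apply, smul_eq_mul]; ring

/-- `f` -/
def oF (K : Type*) [Field K] (d : ℕ) : End K (Fin (d + 1) → K) where
  toFun v := fun i => ((i : ℕ) : K) * ex v ((i : ℕ) - 1)
  map_add' v w := by ext i; simp only [ex_add, Pi.add_apply]; ring
  map_smul' c v := by
    ext i; simp only [ex_smul, Pi.smul_apply, RingHom.id_apply, smul_eq_mul]; ring

/-- `h` -/
def oH (K : Type*) [Field K] (d : ℕ) : End K (Fin (d + 1) → K) where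
  toFun v := fun i => ((d : K) - 2 * ((i : ℕ) : K)) * v i
  map_add' v w := by ext i; simp only [Pi.add_apply]; ring
  map_smul' c v := by
    ext i; simp only [Pi.smul_apply, RingHom.id_apply, smul_eq_mul]; ring

lemma oE_apply (v : Fin (d + 1) → K) (i : Fin (d + 1)) :
    oE K d v i = ((d : K) - ((i : ℕ) : K)) * ex v ((i : ℕ) + 1) := rfl

lemma oF_apply (v : Fin (d + 1) → K) (i : Fin (d + 1)) :
    oF K d v i = ((i : ℕ) : K) * ex v ((i : ℕ) - 1) := rfl

lemma oH_apply (v : Fin (d + 1) → K) (i : Fin (d + 1)) :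
    oH K d v i = ((d : K) - 2 * ((i : ℕ) : K)) * v i := rfl

lemma ex_oE (v : Fin (d + 1) → K) (n : ℕ) (hn : n < d + 1) :
    ex (oE K d v) n = ((d : K) - n) * ex v (n + 1) := by
  rw [ex_lt _ _ hn, oE_apply]

lemma ex_oF (v : Fin (d + 1) → K) (n : ℕ) (hn : n < d + 1) :
    ex (oF K d v) n = (n : K) * ex v (n - 1) := by
  rw [ex_lt _ _ hn, oF_apply]

lemma ex_oH (v : Fin (d + 1) → K) (n : ℕ) :
    ex (oH K d v) n = ((d : K) - 2 * n) * ex v n := by
  unfold ex; split_ifs with h
  · rw [oH_apply]
  · simp

lemma rel_he : oH K d * oE K d - oE K d * oH K d = (2 : K) • oE K d := by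
  ext1 i
  ext x
  simp only [LinearMap.comp_apply, LinearMap.sub_apply, Module.End.mul_apply,
    LinearMap.smul_apply, Pi.sub_apply, Pi.smul_apply, oE_apply, oH_apply, ex_oH, smul_eq_mul]
  push_cast
  ring

lemma rel_hf : oH K d * oF K d - oF K d * oH K d = -((2 : K) • oF K d) := by
  ext1 i
  ext x
  simp only [LinearMap.comp_apply, LinearMap.sub_apply, Module.End.mul_apply, LinearMap.neg_apply,
    LinearMap.smul_apply, Pi.sub_apply, Pi.neg_apply, Pi.smul_apply, oF_apply, oH_apply, ex_oH,
    smul_eq_mul]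
  obtain ⟨x, hx⟩ := x
  match x with
  | 0 => simp
  | (x + 1) =>
    simp only [Nat.add_sub_cancel]
    push_cast
    ring

lemma rel_ef : oE K d * oF K d - oF K d * oE K d = oH K d := by
  ext1 i
  ext x
  simp only [LinearMap.comp_apply, LinearMap.sub_apply, Module.End.mul_apply, Pi.sub_apply,
    oE_apply, oF_apply, oH_apply]
  obtain ⟨x, hx⟩ := x
  have h1 : ∀ v : Fin (d + 1) → K, ((d : K) - (x : K)) * ex (oF K d v) (x + 1) =
      ((d : K) - x) * ((x + 1) * v ⟨x, hx⟩) := by
    intro v
    by_cases h : x + 1 < d + 1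
    · rw [ex_oF _ _ h, Nat.add_sub_cancel, ex_lt _ _ hx]; push_cast; ring
    · have : x = d := by omega
      subst this
      simp
  rw [h1]
  match x with
  | 0 => simp
  | (x + 1) =>
    simp only [Nat.add_sub_cancel]
    rw [ex_oE _ _ (by omega), ex_lt _ _ hx]
    push_cast
    ring

lemma Tri_mA : Tri (mA K d) := by
  intro i j h
  rw [mA, Matrix.of_apply, if_neg (by omega), if_neg (by omega)]

lemma toLin_mA : Matrix.toLin' (mA K d) = oE K d + oF K d := by
  apply LinearMap.ext
  intro v
  funext ⟨i, hi⟩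
  rw [Matrix.toLin'_apply, mulVec_tri Tri_mA, LinearMap.add_apply, Pi.add_apply, oE_apply,
    oF_apply]
  have h1 : lo (mA K d) i = i := by
    unfold lo
    split_ifs with h
    · rw [mA, Matrix.of_apply, if_neg (by simp; omega), if_pos (by simp; omega)]
      have : ((i - 1 : ℕ) : K) + 1 = ((i - 1 + 1 : ℕ) : K) := by push_cast; ring
      simp only [this]
      congr 1
      omega
    · have : i = 0 := by omega
      simp [this]
  have h2 : di (mA K d) i = 0 := by
    unfold di
    rw [dif_pos hi, mA, Matrix.of_apply, if_neg (by simp), if_neg (by simp)]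
  have h3 : up (mA K d) i = (d : K) - i := by
    unfold up
    split_ifs with h
    · rw [mA, Matrix.of_apply, if_pos (by simp)]
    · have : i = d := by omega
      simp [this]
  rw [h1, h2, h3]
  ring

lemma toLin_mB : Matrix.toLin' (mB K d) = oH K d := by
  apply LinearMap.ext
  intro v
  funext i
  rw [Matrix.toLin'_apply, mB, Matrix.mulVec_diagonal, oH_apply]

/-- irreducibility -/
lemma std_irred [CharZero K] (W : Submodule K (Fin (d + 1) → K))
    (hE : ∀ v ∈ W, oE K d v ∈ W) (hF : ∀ v ∈ W, oF K d v ∈ W) (hW : W ≠ ⊥) : W = ⊤ := by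
  -- first the basis vector 0 is in W
  have step1 : ∀ j : ℕ, ∀ hj : j < d + 1, ∀ v ∈ W, v ⟨j, hj⟩ ≠ 0 → (∀ n, j < n → ex v n = 0) →
      (Pi.single (0 : Fin (d + 1)) (1 : K)) ∈ W := by
    intro j
    induction j with
    | zero =>
      intro hj v hv h0 hn
      have h1 : v = (v 0) • (Pi.single (0 : Fin (d + 1)) (1 : K)) := by
        funext i
        by_cases hi : i = 0
        · subst hi; simp
        · have h2 : 0 < (i : ℕ) := Nat.pos_of_ne_zero (fun h => hi (Fin.ext h))
          have h3 := hn i h2
          rw [ex_val] at h3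
          simp [h3, Pi.single_eq_of_ne hi]
      have h2 : (Pi.single (0 : Fin (d + 1)) (1 : K)) = (v 0)⁻¹ • v := by
        have h0' : v 0 ≠ 0 := h0
        conv_rhs => rw [h1]
        rw [smul_smul]
        simp [h0']
      rw [h2]
      exact W.smul_mem _ hv
    | succ j ih =>
      intro hj v hv h0 hn
      apply ih (by omega) (oE K d v) (hE v hv)
      · rw [oE_apply]
        simp only
        rw [ex_lt _ _ hj]
        apply mul_ne_zero _ h0
        have : ((j : ℕ) : K) ≠ (d : K) := by
          intro h; have := Nat.cast_injective h; omega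
        exact sub_ne_zero.2 this.symm
      · intro n hnj
        by_cases h : n < d + 1
        · rw [ex_oE _ _ h, hn (n + 1) (by omega), mul_zero]
        · simp [ex, h]
  obtain ⟨v, hv, hv0⟩ := (Submodule.ne_bot_iff W).1 hW
  obtain ⟨i, hi⟩ := Function.ne_iff.1 hv0
  -- the largest nonzero coordinate
  have hex : ∃ k : ℕ, ex v (d - k) ≠ 0 := ⟨d - i, by
    have : d - (d - (i : ℕ)) = i := by have := i.2; omega
    rw [this, ex_val]; exact hi⟩
  classical
  have hk := Nat.find_spec hex
  have hkm := fun m (hm : m < Nat.find hex) => Nat.find_min hex hm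
  set k := Nat.find hex with hkdef
  have h0 : (Pi.single (0 : Fin (d + 1)) (1 : K)) ∈ W := by
    apply step1 (d - k) (by omega) v hv
    · rw [ex_lt _ _ (by omega)] at hk; exact hk
    · intro n hn
      by_cases h : n < d + 1
      · by_contra hne
        apply hkm (d - n) (by omega)
        have : d - (d - n) = n := by omega
        rw [this]; exact hne
      · simp [ex, h]
  have step2 : ∀ j : ℕ, ∀ hj : j < d + 1, (Pi.single (⟨j, hj⟩ : Fin (d + 1)) (1 : K)) ∈ W := by
    intro j
    induction j with
    | zero => intro hj; exact h0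
    | succ j ih =>
      intro hj
      have h1 := hF _ (ih (by omega))
      have h2 : oF K d (Pi.single (⟨j, by omega⟩ : Fin (d + 1)) (1 : K)) =
          ((j : K) + 1) • (Pi.single (⟨j + 1, hj⟩ : Fin (d + 1)) (1 : K)) := by
        funext i
        rw [oF_apply, Pi.smul_apply, smul_eq_mul]
        by_cases hi : i = ⟨j + 1, hj⟩
        · subst hi
          simp [ex, show j < d + 1 by omega]
        · rw [Pi.single_eq_of_ne hi, mul_zero]
          by_cases hi0 : (i : ℕ) = 0
          · simp [hi0]
          · have h3 : (i : ℕ) - 1 < d + 1 := by omega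
            rw [ex_lt _ _ h3, Pi.single_eq_of_ne, mul_zero]
            intro h4
            have h5 := congrArg Fin.val h4
            simp only at h5
            exact hi (Fin.ext (by simp; omega))
      rw [h2] at h1
      have h3 : ((j : K) + 1) ≠ 0 := by exact_mod_cast Nat.succ_ne_zero j
      have h4 := W.smul_mem ((j : K) + 1)⁻¹ h1
      rwa [smul_smul, inv_mul_cancel₀ h3, one_smul] at h4
  rw [eq_top_iff]
  intro x _
  rw [← Finset.univ_sum_single x]
  apply Submodule.sum_mem
  intro i _
  have : (Pi.single i (x i) : Fin (d + 1) → K) = (x i) • Pi.single i (1 : K) := by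
    rw [← Pi.single_smul, smul_eq_mul, mul_one]
  rw [this]
  exact W.smul_mem _ (step2 i i.2)

end std

end Pool.Agent.helper48.Leonard
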