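import Mathlib
import Pool.Agent.helper48.LeonardDefs
import Pool.Agent.helper48.LeonardBasic

set_option autoImplicit false

/-! Main lemmas for the Leonard triples of `MP_f4f39d_al`. -/

namespace Pool.Agent.helper48.Leonard

open Matrix Module

variable {K : Type*} [Field K] {d : ℕ}

lemma HasLeonardBasis.swap {V : Type*} [AddCommGroup V] [Module K V] {X Y Z : V →ₗ[K] V}
    (h : HasLeonardBasis K X Y Z) : HasLeonardBasis K X Z Y := by
  obtain ⟨n, b, h1, h2, h3⟩ := h
  exact ⟨n, b, h1, h3, h2⟩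

lemma IrredTridiagonal.tri {M : Matrix (Fin (d + 1)) (Fin (d + 1)) K} (h : IrredTridiagonal M) :
    Tri M := h.1

lemma IrredTridiagonal.lo_ne {M : Matrix (Fin (d + 1)) (Fin (d + 1)) K}
    (h : IrredTridiagonal M) {n : ℕ} (h0 : 0 < n) (hn : n < d + 1) : lo M n ≠ 0 := by
  rw [lo, dif_pos ⟨h0, hn⟩]
  apply h.2
  right
  simp only
  omega

lemma IrredTridiagonal.up_ne {M : Matrix (Fin (d + 1)) (Fin (d + 1)) K}
    (h : IrredTridiagonal M) {n : ℕ} (hn : n + 1 < d + 1) : up M n ≠ 0 := by
  rw [up, dif_pos hn]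
  apply h.2
  left
  rfl

section key

variable {V : Type*} [AddCommGroup V] [Module K V]

/-- the key computation -/
lemma key [CharZero K] (w : Basis (Fin (d + 1)) K V) (H X Z : End K V)
    (hH : LinearMap.toMatrix w w H = mB K d)
    (hX : IrredTridiagonal (LinearMap.toMatrix w w X)) (α γ : K)
    (hdi : ∀ n : ℕ, n < d + 1 →
      di (LinearMap.toMatrix w w X) n = α + γ * ((d : K) - 2 * n))
    (hd : 0 < d) (hL : HasLeonardBasis K X H Z) :
    ∃ D : K, D ≠ 0 ∧ ∀ n : ℕ, n + 1 < d + 1 →
      up (LinearMap.toMatrix w w X) n * lo (LinearMap.toMatrix w w X) (n + 1) =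
        ((d : K) - n) * ((n : K) + 1) * (D ^ 2 - γ ^ 2) := by
  obtain ⟨n, u, hu1, hu2, -⟩ := hL
  have hn : n = d + 1 := by
    have h1 := (w.indexEquiv u)
    have h2 := Fintype.card_congr h1
    simpa using h2.symm
  subst hn
  set M := LinearMap.toMatrix w w X with hM
  let i0 : Fin (d + 1) := ⟨0, by omega⟩
  let i1 : Fin (d + 1) := ⟨1, by omega⟩
  let x0 := LinearMap.toMatrix u u X i0 i0
  let x1 := LinearMap.toMatrix u u X i1 i1
  let b0 := LinearMap.toMatrix u u H i0 i0
  let b1 := LinearMap.toMatrix u u H i1 i0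
  have hXu : ∀ i, X (u i) = LinearMap.toMatrix u u X i i • u i := by
    intro i
    rw [← u.sum_repr (X (u i))]
    rw [Finset.sum_eq_single i]
    · rw [LinearMap.toMatrix_apply]
    · intro j _ hj
      have h1 : LinearMap.toMatrix u u X j i = 0 := hu1 hj
      rw [LinearMap.toMatrix_apply] at h1
      rw [h1, zero_smul]
    · intro h; exact absurd (Finset.mem_univ _) h
  have hHu : H (u i0) = b0 • u i0 + b1 • u i1 := by
    rw [← u.sum_repr (H (u i0))]
    have h01 : i0 ≠ i1 := by simp [i0, i1, Fin.ext_iff]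
    rw [Finset.sum_eq_add i0 i1 h01]
    · simp only [b0, b1, LinearMap.toMatrix_apply]
    · intro j _ hj
      have h1 : LinearMap.toMatrix u u H j i0 = 0 := by
        apply hu2.1
        right
        have h2 : (j : ℕ) ≠ 0 := fun h => hj.1 (Fin.ext h)
        have h3 : (j : ℕ) ≠ 1 := fun h => hj.2 (Fin.ext h)
        simp only [i0]
        omega
      rw [LinearMap.toMatrix_apply] at h1
      rw [h1, zero_smul]
    · intro h; exact absurd (Finset.mem_univ _) h
    · intro h; exact absurd (Finset.mem_univ _) h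
  let f : Fin (d + 1) → K := fun i => w.repr (u i0) i
  have hf0 : f ≠ 0 := by
    intro h
    have h1 : w.repr (u i0) = 0 := by
      ext i
      exact congrFun h i
    exact u.ne_zero i0 (by simpa using h1)
  -- first equation
  have e1 : ∀ n, n < d + 1 → lo M n * ex f (n - 1) + di M n * ex f n + up M n * ex f (n + 1) =
      x0 * ex f n := by
    intro n hn
    rw [← mulVec_tri hX.tri f n hn]
    have h1 : M.mulVec f = w.repr (X (u i0)) := LinearMap.toMatrix_mulVec_repr w w X (u i0)
    rw [h1, hXu, map_smul, ex_lt _ _ hn]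
    rfl
  -- coordinates of `H u0`
  have hHf : ∀ v : V, ∀ i : Fin (d + 1), w.repr (H v) i = ((d : K) - 2 * ((i : ℕ) : K)) * w.repr v i := by
    intro v i
    have h1 := congrFun (LinearMap.toMatrix_mulVec_repr w w H v) i
    rw [hH, mB, Matrix.mulVec_diagonal] at h1
    exact h1.symm
  have e2 : ∀ n, n < d + 1 → lo M n * (((d : K) - 2 * ((n - 1 : ℕ) : K)) * ex f (n - 1)) +
      di M n * (((d : K) - 2 * n) * ex f n) +
      up M n * (((d : K) - 2 * ((n + 1 : ℕ) : K)) * ex f (n + 1)) =
      (x1 * ((d : K) - 2 * n) + b0 * (x0 - x1)) * ex f n := by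
    intro n hn
    have h0 : ∀ m : ℕ, ((d : K) - 2 * (m : K)) * ex f m =
        ex (fun i : Fin (d + 1) => w.repr (H (u i0)) i) m := by
      intro m
      unfold ex
      split_ifs with h
      · exact (hHf (u i0) ⟨m, h⟩).symm
      · simp
    rw [h0, h0 n, h0 (n + 1), ← mulVec_tri hX.tri _ n hn]
    have h1 : M.mulVec (fun i : Fin (d + 1) => w.repr (H (u i0)) i) = w.repr (X (H (u i0))) :=
      LinearMap.toMatrix_mulVec_repr w w X (H (u i0))
    have h2 : X (H (u i0)) = x1 • H (u i0) + (b0 * (x0 - x1)) • u i0 := by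
      rw [hHu, map_add, map_smul, map_smul, hXu, hXu]
      simp only [x0, x1]
      module
    rw [h1, h2, map_add, map_smul, map_smul]
    simp only [Finsupp.add_apply, Finsupp.smul_apply, smul_eq_mul]
    rw [hHf, ex_lt _ _ hn]
    ring
  -- combine
  have e3 : ∀ n, n < d + 1 → 2 * lo M n * ex f (n - 1) - 2 * up M n * ex f (n + 1) =
      ((x1 - x0) * ((d : K) - 2 * n) + b0 * (x0 - x1)) * ex f n := by
    intro n hn
    have h1 := e1 n hn
    have h2 := e2 n hn
    match n with
    | 0 =>
      rw [lo_zero] at h1 h2 ⊢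
      push_cast at h2 ⊢
      linear_combination h2 - ((d : K) - 2 * 0) * h1
    | (n + 1) =>
      simp only [Nat.add_sub_cancel] at h1 h2 ⊢
      push_cast at h2 ⊢
      linear_combination h2 - ((d : K) - 2 * (n + 1)) * h1
  -- nonvanishing
  have hup : ∀ n, n + 1 < d + 1 → ex f n = 0 → ex f (n + 1) = 0 := by
    intro n hn h0
    have h1 := e1 n (by omega)
    have h2 := e3 n (by omega)
    rw [h0] at h1 h2
    have h3 : up M n * ex f (n + 1) = 0 := by
      linear_combination (1 / 2) * h1 - (1 / 4) * h2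
    exact (mul_eq_zero.1 h3).resolve_left (hX.up_ne hn)
  have hdn : ∀ n, n + 1 < d + 1 → ex f (n + 1) = 0 → ex f n = 0 := by
    intro n hn h0
    have h1 := e1 (n + 1) hn
    have h2 := e3 (n + 1) hn
    rw [h0] at h1 h2
    simp only [Nat.add_sub_cancel] at h1 h2
    have h3 : lo M (n + 1) * ex f n = 0 := by
      linear_combination (1 / 2) * h1 + (1 / 4) * h2
    exact (mul_eq_zero.1 h3).resolve_left (hX.lo_ne (by omega) hn)
  have hne : ∀ n, n < d + 1 → ex f n ≠ 0 := by
    intro n hn h0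
    have h00 : ex f 0 = 0 := by
      induction n with
      | zero => exact h0
      | succ n ih => exact ih (by omega) (hdn n hn h0)
    have hall : ∀ m, m < d + 1 → ex f m = 0 := by
      intro m
      induction m with
      | zero => intro _; exact h00
      | succ m ih => intro hm; exact hup m hm (ih (by omega))
    apply hf0
    funext i
    have := hall i i.2
    rwa [ex_val] at this
  have E0 : 2 * x0 - 2 * (α + γ * d) + (x1 - x0) * d + b0 * (x0 - x1) = 0 := by
    have h1 := e1 0 (by omega)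
    have h2 := e3 0 (by omega)
    rw [lo_zero, hdi 0 (by omega)] at h1
    rw [lo_zero] at h2
    have h3 : (2 * x0 - 2 * (α + γ * d) + (x1 - x0) * d + b0 * (x0 - x1)) * ex f 0 = 0 := by
      push_cast at h1 h2
      linear_combination -2 * h1 - h2
    exact (mul_eq_zero.1 h3).resolve_right (hne 0 (by omega))
  have Ed : 2 * x0 - 2 * (α - γ * d) + (x1 - x0) * d - b0 * (x0 - x1) = 0 := by
    have h1 := e1 d (by omega)
    have h2 := e3 d (by omega)
    rw [up_last, hdi d (by omega)] at h1
    rw [up_last] at h2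
    have h3 : (2 * x0 - 2 * (α - γ * d) + (x1 - x0) * d - b0 * (x0 - x1)) * ex f d = 0 := by
      linear_combination -2 * h1 + h2
    exact (mul_eq_zero.1 h3).resolve_right (hne d (by omega))
  refine ⟨(x1 - x0) / 2, ?_, ?_⟩
  · intro hD
    have hx : x1 = x0 := by
      have : x1 - x0 = 0 := by linear_combination 2 * hD
      exact sub_eq_zero.1 this
    have h2 := e3 0 (by omega)
    rw [lo_zero, hx] at h2
    have h3 : up M 0 * ex f 1 = 0 := by linear_combination (-1 / 2) * h2
    rcases mul_eq_zero.1 h3 with h4 | h4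
    · exact hX.up_ne (by omega) h4
    · exact hne 1 (by omega) h4
  · intro n hn
    have h1 := e1 n (by omega)
    have h2 := e3 n (by omega)
    have h1' := e1 (n + 1) hn
    have h2' := e3 (n + 1) hn
    rw [hdi n (by omega)] at h1
    rw [hdi (n + 1) hn] at h1'
    simp only [Nat.add_sub_cancel] at h1' h2'
    push_cast at h1' h2'
    have a1 : up M n * ex f (n + 1) = -(γ + (x1 - x0) / 2) * (d - n) * ex f n := by
      linear_combination (1 / 2) * h1 - (1 / 4) * h2 + (1 / 4) * ex f n * Ed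
    have a2 : lo M (n + 1) * ex f n = (γ - (x1 - x0) / 2) * (n + 1) * ex f (n + 1) := by
      linear_combination (1 / 2) * h1' + (1 / 4) * h2' + (1 / 4) * ex f (n + 1) * E0
    have a3 : (up M n * lo M (n + 1) -
        ((d : K) - n) * ((n : K) + 1) * (((x1 - x0) / 2) ^ 2 - γ ^ 2)) *
        (ex f n * ex f (n + 1)) = 0 := by
      linear_combination (lo M (n + 1) * ex f n) * a1 +
        (-(γ + (x1 - x0) / 2) * (d - n) * ex f n) * a2
    have a4 := (mul_eq_zero.1 a3).resolve_right
      (mul_ne_zero (hne n (by omega)) (hne (n + 1) hn))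
    linear_combination a4

end key

section transfer

variable {V : Type*} [AddCommGroup V] [Module K V]

lemma irred_iff {n : ℕ} (M : Matrix (Fin n) (Fin n) K) :
    IrredTridiagonal M ↔
      ∀ i j : Fin n, i ≠ j → (M i j ≠ 0 ↔ (i : ℕ) + 1 = j ∨ (j : ℕ) + 1 = i) := by
  constructor
  · intro h i j hij
    constructor
    · intro h1
      by_contra h2
      apply h1
      apply h.1
      have h3 : (i : ℕ) ≠ j := fun h => hij (Fin.ext h)
      omega
    · exact h.2 i j
  · intro h
    constructor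
    · intro i j h1
      by_contra h2
      have h3 := (h i j (fun h' => by subst h'; omega)).1 h2
      omega
    · intro i j h1
      exact (h i j (fun h' => by subst h'; omega)).2 h1

/-- the shape of matrices in an eigenbasis does not depend on the eigenbasis -/
lemma transfer (w : Basis (Fin (d + 1)) K V) (H Y X : End K V) (μ : Fin (d + 1) → K)
    (hμ : Function.Injective μ) (hH : LinearMap.toMatrix w w H = Matrix.diagonal μ)
    (hY : IrredTridiagonal (LinearMap.toMatrix w w Y)) (hL : HasLeonardBasis K H Y X) :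
    IrredTridiagonal (LinearMap.toMatrix w w X) := by
  obtain ⟨n, b, hb1, hb2, hb3⟩ := hL
  have hn : n = d + 1 := by
    have h2 := Fintype.card_congr (w.indexEquiv b)
    simpa using h2.symm
  subst hn
  -- `b k` is a multiple of a `w i`
  have hHf : ∀ v : V, ∀ i : Fin (d + 1), w.repr (H v) i = μ i * w.repr v i := by
    intro v i
    have h1 := congrFun (LinearMap.toMatrix_mulVec_repr w w H v) i
    rw [hH, Matrix.mulVec_diagonal] at h1
    exact h1.symm
  have hHb : ∀ k, H (b k) = LinearMap.toMatrix b b H k k • b k := by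
    intro i
    rw [← b.sum_repr (H (b i))]
    rw [Finset.sum_eq_single i]
    · rw [LinearMap.toMatrix_apply]
    · intro j _ hj
      have h1 : LinearMap.toMatrix b b H j i = 0 := hb1 hj
      rw [LinearMap.toMatrix_apply] at h1
      rw [h1, zero_smul]
    · intro h; exact absurd (Finset.mem_univ _) h
  have hex : ∀ k, ∃ i, w.repr (b k) i ≠ 0 := by
    intro k
    by_contra hcon
    push Not at hcon
    apply b.ne_zero k
    have : w.repr (b k) = 0 := by ext i; exact hcon i
    simpa using this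
  choose σ hσ using hex
  have hμσ : ∀ k, μ (σ k) = LinearMap.toMatrix b b H k k := by
    intro k
    have h1 := hHf (b k) (σ k)
    rw [hHb k, map_smul, Finsupp.smul_apply, smul_eq_mul] at h1
    exact (mul_right_cancel₀ (hσ k) h1).symm
  have huniq : ∀ k i, i ≠ σ k → w.repr (b k) i = 0 := by
    intro k i hi
    by_contra hne
    apply hi
    apply hμ
    have h1 := hHf (b k) i
    rw [hHb k, map_smul, Finsupp.smul_apply, smul_eq_mul] at h1
    rw [hμσ]
    exact (mul_right_cancel₀ hne h1).symm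
  have hbk : ∀ k, b k = w.repr (b k) (σ k) • w (σ k) := by
    intro k
    apply w.repr.injective
    rw [map_smul, Basis.repr_self]
    ext i
    by_cases hi : i = σ k
    · subst hi; simp
    · rw [huniq k i hi]
      simp [Ne.symm hi]
  have hσinj : Function.Injective σ := by
    intro k l hkl
    by_contra hne
    have h1 : w.repr (b l) (σ l) • b k - w.repr (b k) (σ k) • b l = 0 := by
      rw [hbk k, hbk l, hkl]
      simp only [map_smul, Basis.repr_self, Finsupp.smul_apply, Finsupp.single_eq_same,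
        smul_eq_mul, mul_one, smul_smul]
      rw [mul_comm, sub_self]
    have h2 := congrArg (fun v => b.repr v k) h1
    simp only [map_sub, map_smul, Basis.repr_self, Finsupp.sub_apply, Finsupp.smul_apply,
      Finsupp.single_eq_same, map_zero, Finsupp.zero_apply, smul_eq_mul, mul_one] at h2
    rw [Finsupp.single_eq_of_ne (Ne.symm (Ne.symm hne)), mul_zero, sub_zero] at h2
    exact hσ l h2
  have hσbij : Function.Bijective σ := Finite.injective_iff_bijective.1 hσinj
  have hentry : ∀ T : End K V, ∀ k l, LinearMap.toMatrix w w T (σ k) (σ l) * w.repr (b l) (σ l) =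
      LinearMap.toMatrix b b T k l * w.repr (b k) (σ k) := by
    intro T k l
    have h1 : w.repr (T (b l)) (σ k) =
        LinearMap.toMatrix w w T (σ k) (σ l) * w.repr (b l) (σ l) := by
      conv_lhs => rw [hbk l]
      rw [map_smul, map_smul, Finsupp.smul_apply, LinearMap.toMatrix_apply, smul_eq_mul, mul_comm]
    have h2 : w.repr (T (b l)) (σ k) = LinearMap.toMatrix b b T k l * w.repr (b k) (σ k) := by
      rw [← b.sum_repr (T (b l)), map_sum, Finsupp.finsetSum_apply, Finset.sum_eq_single k]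
      · rw [map_smul, Finsupp.smul_apply, smul_eq_mul, LinearMap.toMatrix_apply]
      · intro j _ hj
        rw [map_smul, Finsupp.smul_apply, huniq j (σ k) (fun h => hj (hσinj h).symm), smul_zero]
      · intro h; exact absurd (Finset.mem_univ _) h
    rw [← h1, h2]
  have hiff : ∀ T : End K V, ∀ k l, LinearMap.toMatrix w w T (σ k) (σ l) ≠ 0 ↔
      LinearMap.toMatrix b b T k l ≠ 0 := by
    intro T k l
    have h1 := hentry T k l
    constructor
    · intro h2 h3
      rw [h3, zero_mul] at h1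
      exact (mul_ne_zero h2 (hσ l)) h1
    · intro h2 h3
      rw [h3, zero_mul] at h1
      exact (mul_ne_zero h2 (hσ k)) h1.symm
  rw [irred_iff] at hY hb2 hb3 ⊢
  intro i j hij
  obtain ⟨k, rfl⟩ := hσbij.2 i
  obtain ⟨l, rfl⟩ := hσbij.2 j
  have hkl : k ≠ l := fun h => hij (by rw [h])
  rw [hiff, hb3 k l hkl, ← hb2 k l hkl, ← hiff, hY _ _ hij]

end transfer

section triple

lemma triple_rel [CharZero K] {R : Type*} [Ring R] [Algebra K R] (a b y : R)
    (hab : a * b - b * a = (2 : K) • y) (hay : a * y - y * a = (2 : K) • b)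
    (hby : b * y - y * b = -((2 : K) • a)) (c1 c2 c3 t : K) (hc : c1 ^ 2 + c2 ^ 2 - c3 ^ 2 = 1)
    (ht : 2 * (1 - c1 ^ 2) * t = 1) (h e f : R) (hh : h = c1 • a + c2 • b + c3 • y)
    (he : e = (1 / 2 : K) • ((1 - c1 ^ 2) • a + (-c1 * c2 - c3) • b + (-c1 * c3 - c2) • y))
    (hf : f = t • ((1 - c1 ^ 2) • a + (-c1 * c2 + c3) • b + (-c1 * c3 + c2) • y)) :
    h * e - e * h = (2 : K) • e ∧ h * f - f * h = -((2 : K) • f) ∧ e * f - f * e = h ∧
      a = c1 • h + e + (1 - c1 ^ 2) • f ∧
      b = c2 • h + ((c3 - c1 * c2) * (2 * t)) • e + (-(c3 + c1 * c2)) • f := by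
  have l1 : a * b = b * a + (2 : K) • y := by rw [← hab]; abel
  have l2 : a * y = y * a + (2 : K) • b := by rw [← hay]; abel
  have l3 : b * y = y * b - (2 : K) • a := by rw [sub_eq_add_neg, ← hby]; abel
  subst hh he hf
  refine ⟨?_, ?_, ?_, ?_, ?_⟩
  · simp only [mul_add, add_mul, smul_mul_assoc, mul_smul_comm, l1, l2, l3]
    match_scalars
    all_goals first | ring1 | linear_combination hc
  · simp only [mul_add, add_mul, smul_mul_assoc, mul_smul_comm, l1, l2, l3]
    match_scalars
    all_goals first | ring1 | linear_combination (-2 * t) * hc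
  · simp only [mul_add, add_mul, smul_mul_assoc, mul_smul_comm, l1, l2, l3]
    match_scalars
    all_goals first | ring1 | linear_combination c1 * ht + 2 * t * c1 * hc | linear_combination c2 * ht | linear_combination c3 * ht
  · match_scalars
    · linear_combination (-(1 / 2) * (1 - c1 ^ 2)) * ht
    · linear_combination (-(1 / 2) * (-c1 * c2 + c3)) * ht
    · linear_combination (-(1 / 2) * (-c1 * c3 + c2)) * ht
  · match_scalars
    · linear_combination (-(1 - c2 ^ 2)) * ht + (-2 * t) * hc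
    · linear_combination (c1 * c2) * ht
    · linear_combination (c2 * c3) * ht


end triple

section combo

/-- `α I + β N + γ D + δ (N D - D N) + ζ (N D + D N)` with `D = diag(d, d-2, …)` -/
def combo (N : Matrix (Fin (d + 1)) (Fin (d + 1)) K) (α β γ δ ζ : K) :
    Matrix (Fin (d + 1)) (Fin (d + 1)) K :=
  α • (1 : Matrix (Fin (d + 1)) (Fin (d + 1)) K) + β • N + γ • mB K d +
    δ • (N * mB K d - mB K d * N) + ζ • (N * mB K d + mB K d * N)

lemma combo_apply (N : Matrix (Fin (d + 1)) (Fin (d + 1)) K) (α β γ δ ζ : K)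
    (i j : Fin (d + 1)) :
    combo N α β γ δ ζ i j = (if i = j then α + γ * ((d : K) - 2 * ((i : ℕ) : K)) else 0) +
      N i j * (β + δ * (2 * ((i : ℕ) : K) - 2 * ((j : ℕ) : K)) +
        ζ * (2 * (d : K) - 2 * ((i : ℕ) : K) - 2 * ((j : ℕ) : K))) := by
  simp only [combo, mB, Matrix.add_apply, Matrix.smul_apply, Matrix.sub_apply,
    Matrix.mul_diagonal, Matrix.diagonal_mul, Matrix.one_apply, Matrix.diagonal_apply,
    smul_eq_mul]
  split_ifs <;> ring

lemma combo_di {N : Matrix (Fin (d + 1)) (Fin (d + 1)) K} (hN : ∀ i, N i i = 0)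
    (α β γ δ ζ : K) (n : ℕ) (hn : n < d + 1) :
    di (combo N α β γ δ ζ) n = α + γ * ((d : K) - 2 * n) := by
  rw [di, dif_pos hn, combo_apply, hN]
  simp

lemma combo_up (N : Matrix (Fin (d + 1)) (Fin (d + 1)) K) (α β γ δ ζ : K) (n : ℕ)
    (hn : n + 1 < d + 1) :
    up (combo N α β γ δ ζ) n = up N n * (β - 2 * δ + ζ * (2 * (d : K) - 4 * n - 2)) := by
  rw [up, dif_pos hn, up, dif_pos hn, combo_apply]
  simp
  left
  ring

lemma combo_lo (N : Matrix (Fin (d + 1)) (Fin (d + 1)) K) (α β γ δ ζ : K) (n : ℕ)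
    (hn : n + 1 < d + 1) :
    lo (combo N α β γ δ ζ) (n + 1) =
      lo N (n + 1) * (β + 2 * δ + ζ * (2 * (d : K) - 4 * n - 2)) := by
  rw [lo, dif_pos ⟨by omega, hn⟩, lo, dif_pos ⟨by omega, hn⟩, combo_apply]
  simp
  left
  ring

lemma irred_of_entries {M : Matrix (Fin (d + 1)) (Fin (d + 1)) K} (h : Tri M)
    (hu : ∀ n, n + 1 < d + 1 → up M n ≠ 0) (hl : ∀ n, n + 1 < d + 1 → lo M (n + 1) ≠ 0) :
    IrredTridiagonal M := by
  refine ⟨h, ?_⟩
  rintro ⟨i, hi⟩ ⟨j, hj⟩ hij
  simp only at hij
  rcases hij with rfl | rfl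
  · have := hu i hj
    rwa [up, dif_pos hj] at this
  · have := hl j hi
    rw [lo, dif_pos ⟨by omega, hi⟩] at this
    simpa using this

lemma combo_tri {N : Matrix (Fin (d + 1)) (Fin (d + 1)) K} (hN : Tri N) (α β γ δ ζ : K) :
    Tri (combo N α β γ δ ζ) := by
  intro i j hij
  rw [combo_apply, hN i j hij, if_neg (fun h => by subst h; omega)]
  simp

lemma combo_irred {N : Matrix (Fin (d + 1)) (Fin (d + 1)) K} (hN : IrredTridiagonal N)
    (α β γ δ ζ : K)
    (hu : ∀ n, n + 1 < d + 1 → β - 2 * δ + ζ * (2 * (d : K) - 4 * n - 2) ≠ 0)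
    (hl : ∀ n, n + 1 < d + 1 → β + 2 * δ + ζ * (2 * (d : K) - 4 * n - 2) ≠ 0) :
    IrredTridiagonal (combo N α β γ δ ζ) := by
  apply irred_of_entries (combo_tri hN.1 _ _ _ _ _)
  · intro n hn
    rw [combo_up _ _ _ _ _ _ _ hn]
    exact mul_ne_zero (hN.up_ne hn) (hu n hn)
  · intro n hn
    rw [combo_lo _ _ _ _ _ _ _ hn]
    exact mul_ne_zero (hN.lo_ne (by omega) hn) (hl n hn)

lemma mA_up (n : ℕ) (hn : n + 1 < d + 1) : up (mA K d) n = (d : K) - n := by
  rw [up, dif_pos hn, mA, Matrix.of_apply, if_pos (by simp)]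

lemma mA_lo (n : ℕ) (hn : n + 1 < d + 1) : lo (mA K d) (n + 1) = (n : K) + 1 := by
  rw [lo, dif_pos ⟨by omega, hn⟩, mA, Matrix.of_apply, if_neg (by simp; omega), if_pos (by simp)]
  simp

lemma mA_di (i : Fin (d + 1)) : mA K d i i = 0 := by
  rw [mA, Matrix.of_apply, if_neg (by omega), if_neg (by omega)]

lemma mA_irred [CharZero K] : IrredTridiagonal (mA K d) := by
  apply irred_of_entries Tri_mA
  · intro n hn
    rw [mA_up n hn]
    have : ((n : ℕ) : K) ≠ (d : K) := by
      intro h; have := Nat.cast_injective h; omega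
    exact sub_ne_zero.2 this.symm
  · intro n hn
    rw [mA_lo n hn]
    exact_mod_cast Nat.succ_ne_zero n

/-- the matrix of `p h + q e + r f` in the basis of `sl2_basis` -/
def mN (K : Type*) [Field K] (d : ℕ) (q r : K) : Matrix (Fin (d + 1)) (Fin (d + 1)) K :=
  q • Matrix.of (fun i j : Fin (d + 1) =>
        if (i : ℕ) + 1 = (j : ℕ) then ((j : ℕ) : K) * ((d : K) + 1 - ((j : ℕ) : K)) else 0) +
  r • Matrix.of (fun i j : Fin (d + 1) =>
        if (j : ℕ) + 1 = (i : ℕ) then (1 : K) else 0)

lemma mN_up (q r : K) (n : ℕ) (hn : n + 1 < d + 1) :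
    up (mN K d q r) n = q * (((n : K) + 1) * ((d : K) - n)) := by
  rw [up, dif_pos hn, mN, Matrix.add_apply, Matrix.smul_apply, Matrix.smul_apply,
    Matrix.of_apply, Matrix.of_apply, if_pos (by simp), if_neg (by simp; omega)]
  simp

lemma mN_lo (q r : K) (n : ℕ) (hn : n + 1 < d + 1) :
    lo (mN K d q r) (n + 1) = r := by
  rw [lo, dif_pos ⟨by omega, hn⟩, mN, Matrix.add_apply, Matrix.smul_apply, Matrix.smul_apply,
    Matrix.of_apply, Matrix.of_apply, if_neg (by simp; omega), if_pos (by simp)]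
  simp

lemma mN_di (q r : K) (i : Fin (d + 1)) : mN K d q r i i = 0 := by
  rw [mN, Matrix.add_apply, Matrix.smul_apply, Matrix.smul_apply,
    Matrix.of_apply, Matrix.of_apply, if_neg (by omega), if_neg (by omega)]
  simp

lemma mN_tri (q r : K) : Tri (mN K d q r) := by
  intro i j hij
  rw [mN, Matrix.add_apply, Matrix.smul_apply, Matrix.smul_apply,
    Matrix.of_apply, Matrix.of_apply, if_neg (by omega), if_neg (by omega)]
  simp

lemma mN_irred [CharZero K] {q r : K} (hq : q ≠ 0) (hr : r ≠ 0) :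
    IrredTridiagonal (mN K d q r) := by
  apply irred_of_entries (mN_tri q r)
  · intro n hn
    rw [mN_up _ _ _ hn]
    have h1 : ((n : ℕ) : K) ≠ (d : K) := by
      intro h; have := Nat.cast_injective h; omega
    have h2 : ((n : K) + 1) ≠ 0 := by exact_mod_cast Nat.succ_ne_zero n
    exact mul_ne_zero hq (mul_ne_zero h2 (sub_ne_zero.2 h1.symm))
  · intro n hn
    rw [mN_lo _ _ _ hn]
    exact hr

end combo

section standard

/-- `A` -/
def oA (K : Type*) [Field K] (d : ℕ) : End K (Fin (d + 1) → K) := oE K d + oF K d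
/-- `(AA* - A*A)/2` -/
def oY (K : Type*) [Field K] (d : ℕ) : End K (Fin (d + 1) → K) := oF K d - oE K d

lemma rAB : oA K d * oH K d - oH K d * oA K d = (2 : K) • oY K d := by
  have h1 := rel_he (K := K) (d := d)
  have h2 := rel_hf (K := K) (d := d)
  simp only [oA, oY, add_mul, mul_add]
  rw [sub_eq_iff_eq_add] at h1 h2
  rw [h1, h2]
  module

lemma rAY : oA K d * oY K d - oY K d * oA K d = (2 : K) • oH K d := by
  have h3 := rel_ef (K := K) (d := d)
  simp only [oA, oY, add_mul, mul_add, sub_mul, mul_sub]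
  rw [sub_eq_iff_eq_add] at h3
  rw [h3]
  module

lemma rBY : oH K d * oY K d - oY K d * oH K d = -((2 : K) • oA K d) := by
  have h1 := rel_he (K := K) (d := d)
  have h2 := rel_hf (K := K) (d := d)
  simp only [oA, oY, sub_mul, mul_sub]
  rw [sub_eq_iff_eq_add] at h1 h2
  rw [h1, h2]
  module

lemma std_irred' [CharZero K] (W : Submodule K (Fin (d + 1) → K))
    (hA : ∀ v ∈ W, oA K d v ∈ W) (hB : ∀ v ∈ W, oH K d v ∈ W) (hW : W ≠ ⊥) : W = ⊤ := by
  have hY : ∀ v ∈ W, oY K d v ∈ W := by
    intro v hv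
    have h1 : oY K d = (1 / 2 : K) • (oA K d * oH K d - oH K d * oA K d) := by
      rw [rAB]; module
    rw [h1]
    exact W.smul_mem _ (W.sub_mem (hA _ (hB _ hv)) (hB _ (hA _ hv)))
  apply std_irred W _ _ hW
  · intro v hv
    have h1 : oE K d = (1 / 2 : K) • (oA K d - oY K d) := by
      rw [oA, oY]; module
    rw [h1]
    exact W.smul_mem _ (W.sub_mem (hA _ hv) (hY _ hv))
  · intro v hv
    have h1 : oF K d = (1 / 2 : K) • (oA K d + oY K d) := by
      rw [oA, oY]; module
    rw [h1]
    exact W.smul_mem _ (W.add_mem (hA _ hv) (hY _ hv))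

lemma finrank_V0 : finrank K (Fin (d + 1) → K) = d + 1 := by simp

/-- the basis of eigenvectors of `A` -/
lemma A_basis [IsAlgClosed K] [CharZero K] :
    ∃ (w : Basis (Fin (d + 1)) K (Fin (d + 1) → K)) (v : Fin (d + 1) → K) (e f : End K (Fin (d + 1) → K)),
      (∀ i : Fin (d + 1), w i = psi f v i) ∧ psi f v (d + 1) = 0 ∧
      (∀ n : ℕ, oA K d (psi f v n) = ((d : K) - 2 * n) • psi f v n) ∧ e v = 0 ∧
      (∀ n : ℕ, e (psi f v (n + 1)) = (((n : K) + 1) * ((d : K) - n)) • psi f v n) ∧
      oH K d = e + f ∧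
      LinearMap.toMatrix w w (oA K d) = mB K d ∧
      LinearMap.toMatrix w w (oH K d) = mN K d 1 1 := by
  have hab := rAB (K := K) (d := d)
  have hay := rAY (K := K) (d := d)
  have hby := rBY (K := K) (d := d)
  set a := oA K d with ha
  set b := oH K d with hb
  set y := oY K d with hy
  let e : End K (Fin (d + 1) → K) := (1 / 2 : K) • (b + y)
  let f : End K (Fin (d + 1) → K) := (1 / 2 : K) • (b - y)
  have l1 : a * b = b * a + (2 : K) • y := by rw [← hab]; abel
  have l2 : a * y = y * a + (2 : K) • b := by rw [← hay]; abel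
  have l3 : b * y = y * b - (2 : K) • a := by rw [sub_eq_add_neg, ← hby]; abel
  have he : a * e - e * a = (2 : K) • e := by
    simp only [e, mul_add, add_mul, smul_mul_assoc, mul_smul_comm, l1, l2]
    module
  have hf : a * f - f * a = -((2 : K) • f) := by
    simp only [f, mul_sub, sub_mul, smul_mul_assoc, mul_smul_comm, l1, l2]
    module
  have hef : e * f - f * e = a := by
    simp only [e, f, mul_add, add_mul, mul_sub, sub_mul, smul_mul_assoc, mul_smul_comm, l3]
    module
  have hbef : b = e + f := by simp only [e, f]; module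
  obtain ⟨w, v, h1, h2, h3, h4, h5, h6, h7, h8⟩ := sl2_basis finrank_V0 a e f he hf hef (by
    intro W hWa hWe hWf hW
    apply std_irred' W hWa _ hW
    intro v hv
    rw [← hb, hbef]
    exact W.add_mem (hWe v hv) (hWf v hv))
  refine ⟨w, v, e, f, h1, h2, h3, h4, h5, hbef, h6, ?_⟩
  rw [hbef, map_add, h7, h8, mN]
  simp

/-- a basis of eigenvectors of `c₁ A + c₂ A* + c₃ Y` in which `A` and `A*` are irreducible
tridiagonal -/
lemma good_basis [IsAlgClosed K] [CharZero K] (c1 c2 c3 : K) (hc : c1 ^ 2 + c2 ^ 2 - c3 ^ 2 = 1)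
    (hc1 : c1 ^ 2 ≠ 1) (hc2 : c2 ^ 2 ≠ 1) :
    ∃ (w : Basis (Fin (d + 1)) K (Fin (d + 1) → K)),
      LinearMap.toMatrix w w (c1 • oA K d + c2 • oH K d + c3 • oY K d) = mB K d ∧
      IrredTridiagonal (LinearMap.toMatrix w w (oA K d)) ∧
      IrredTridiagonal (LinearMap.toMatrix w w (oH K d)) := by
  have hn : 1 - c1 ^ 2 ≠ 0 := sub_ne_zero.2 hc1.symm
  have hn2 : 1 - c2 ^ 2 ≠ 0 := sub_ne_zero.2 hc2.symm
  obtain ⟨t, ht⟩ : ∃ t : K, 2 * (1 - c1 ^ 2) * t = 1 :=
    ⟨(2 * (1 - c1 ^ 2))⁻¹, mul_inv_cancel₀ (mul_ne_zero two_ne_zero hn)⟩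
  obtain ⟨r1, r2, r3, r4, r5⟩ := triple_rel (oA K d) (oH K d) (oY K d) rAB rAY rBY c1 c2 c3 t hc ht
    _ _ _ rfl rfl rfl
  set h := c1 • oA K d + c2 • oH K d + c3 • oY K d with hh
  set e := (1 / 2 : K) • ((1 - c1 ^ 2) • oA K d + (-c1 * c2 - c3) • oH K d +
    (-c1 * c3 - c2) • oY K d) with he
  set f := t • ((1 - c1 ^ 2) • oA K d + (-c1 * c2 + c3) • oH K d +
    (-c1 * c3 + c2) • oY K d) with hf
  clear_value h e f
  obtain ⟨w, v, -, -, -, -, -, h6, h7, h8⟩ := sl2_basis finrank_V0 h e f r1 r2 r3 (by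
    intro W hWh hWe hWf hW
    apply std_irred' W _ _ hW
    · intro v hv
      rw [r4]
      exact W.add_mem (W.add_mem (W.smul_mem _ (hWh v hv)) (hWe v hv))
        (W.smul_mem _ (hWf v hv))
    · intro v hv
      rw [r5]
      exact W.add_mem (W.add_mem (W.smul_mem _ (hWh v hv)) (W.smul_mem _ (hWe v hv)))
        (W.smul_mem _ (hWf v hv)))
  have hprod : ((c3 - c1 * c2) * (2 * t)) * (-(c3 + c1 * c2)) = 1 - c2 ^ 2 := by
    linear_combination (1 - c2 ^ 2) * ht + (2 * t) * hc
  have hk1 : (c3 - c1 * c2) * (2 * t) ≠ 0 := by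
    intro h0; rw [h0, zero_mul] at hprod; exact hn2 hprod.symm
  have hk2 : -(c3 + c1 * c2) ≠ 0 := by
    intro h0; rw [h0, mul_zero] at hprod; exact hn2 hprod.symm
  have hgen : ∀ p q r : K, q ≠ 0 → r ≠ 0 → ∀ T : End K (Fin (d + 1) → K),
      T = p • h + q • e + r • f → IrredTridiagonal (LinearMap.toMatrix w w T) := by
    intro p q r hq hr T hT
    rw [hT, map_add, map_add, map_smul, map_smul, map_smul, h6, h7, h8]
    have h9 : p • mB K d + q • Matrix.of (fun i j : Fin (d + 1) =>
        if (i : ℕ) + 1 = (j : ℕ) then ((j : ℕ) : K) * ((d : K) + 1 - ((j : ℕ) : K)) else 0) +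
        r • Matrix.of (fun i j : Fin (d + 1) =>
        if (j : ℕ) + 1 = (i : ℕ) then (1 : K) else 0) = combo (mN K d q r) 0 1 p 0 0 := by
      simp only [combo, mN]
      module
    rw [h9]
    apply combo_irred (mN_irred hq hr)
    · intro n _; simp
    · intro n _; simp
  refine ⟨w, h6, ?_, ?_⟩
  · exact hgen c1 1 (1 - c1 ^ 2) one_ne_zero hn _ (by rw [one_smul]; exact r4)
  · exact hgen c2 _ _ hk1 hk2 _ r5

end standard

section structural

lemma tri_ext {M N : Matrix (Fin (d + 1)) (Fin (d + 1)) K} (hM : Tri M) (hN : Tri N)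
    (hd : ∀ n, n < d + 1 → di M n = di N n) (hu : ∀ n, n + 1 < d + 1 → up M n = up N n)
    (hl : ∀ n, n + 1 < d + 1 → lo M (n + 1) = lo N (n + 1)) : M = N := by
  ext ⟨i, hi⟩ ⟨j, hj⟩
  rcases lt_trichotomy i j with h | h | h
  · rcases Nat.lt_or_ge (i + 1) j with h1 | h1
    · rw [hM _ _ (Or.inl h1), hN _ _ (Or.inl h1)]
    · obtain rfl : j = i + 1 := by omega
      have h2 := hu i hj
      rwa [up, dif_pos hj, up, dif_pos hj] at h2
  · subst h
    have h2 := hd i hi
    rwa [di, dif_pos hi, di, dif_pos hi] at h2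
  · rcases Nat.lt_or_ge (j + 1) i with h1 | h1
    · rw [hM _ _ (Or.inr h1), hN _ _ (Or.inr h1)]
    · obtain rfl : i = j + 1 := by omega
      have h2 := hl j hi
      rw [lo, dif_pos ⟨by omega, hi⟩, lo, dif_pos ⟨by omega, hi⟩] at h2
      simpa using h2

lemma apply_psi {V : Type*} [AddCommGroup V] [Module K V] (w : Basis (Fin (d + 1)) K V) (v : V)
    (f T : End K V) (hw : ∀ i : Fin (d + 1), w i = psi f v i)
    (hT : Tri (LinearMap.toMatrix w w T)) (k : ℕ) (hk : k < d + 1) :
    T (psi f v k) = (if 0 < k then up (LinearMap.toMatrix w w T) (k - 1) • psi f v (k - 1) else 0) +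
      di (LinearMap.toMatrix w w T) k • psi f v k +
      lo (LinearMap.toMatrix w w T) (k + 1) • psi f v (k + 1) := by
  have hpsi : ∀ n (hn : n < d + 1), psi f v n = w ⟨n, hn⟩ := fun n hn => (hw ⟨n, hn⟩).symm
  have h3 : lo (LinearMap.toMatrix w w T) (k + 1) • psi f v (k + 1) =
      if h : k + 1 < d + 1 then LinearMap.toMatrix w w T ⟨k + 1, h⟩ ⟨k, hk⟩ • w ⟨k + 1, h⟩
        else 0 := by
    split_ifs with h
    · rw [hpsi _ h, lo, dif_pos ⟨by omega, h⟩]
      simp
    · rw [lo, dif_neg (fun h' => h h'.2), zero_smul]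
  have h1 : (if 0 < k then up (LinearMap.toMatrix w w T) (k - 1) • psi f v (k - 1) else 0) =
      if h : 0 < k then LinearMap.toMatrix w w T ⟨k - 1, by omega⟩ ⟨k, hk⟩ • w ⟨k - 1, by omega⟩
        else 0 := by
    split_ifs with h
    · have h2 : k - 1 + 1 = k := by omega
      rw [hpsi _ (by omega), up, dif_pos (by omega)]
      simp [h2]
    · rfl
  rw [h1, h3, hpsi k hk, di, dif_pos hk]
  apply w.repr.injective
  ext ⟨i, hi⟩
  have h4 : w.repr (T (w ⟨k, hk⟩)) ⟨i, hi⟩ = LinearMap.toMatrix w w T ⟨i, hi⟩ ⟨k, hk⟩ := by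
    rw [LinearMap.toMatrix_apply]
  rw [h4]
  have hne : ∀ m (hm : m < d + 1), m ≠ i → w.repr (w ⟨m, hm⟩) ⟨i, hi⟩ = 0 := by
    intro m hm hmi
    rw [Basis.repr_self, Finsupp.single_eq_of_ne]
    intro h
    exact hmi (congrArg Fin.val h).symm
  have heq : w.repr (w ⟨i, hi⟩) ⟨i, hi⟩ = 1 := by
    rw [Basis.repr_self, Finsupp.single_eq_same]
  simp only [map_add, Finsupp.add_apply]
  have t1 : w.repr (if h : 0 < k then
      LinearMap.toMatrix w w T ⟨k - 1, by omega⟩ ⟨k, hk⟩ • w ⟨k - 1, by omega⟩ else 0) ⟨i, hi⟩ =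
      if i + 1 = k then LinearMap.toMatrix w w T ⟨i, hi⟩ ⟨k, hk⟩ else 0 := by
    by_cases h : 0 < k
    · rw [dif_pos h, map_smul, Finsupp.smul_apply, smul_eq_mul]
      by_cases h' : i + 1 = k
      · subst h'
        rw [if_pos rfl]
        simp only [Nat.add_sub_cancel]
        rw [heq, mul_one]
      · rw [if_neg h', hne _ _ (by omega), mul_zero]
    · rw [dif_neg h, if_neg (by omega)]
      simp
  have t2 : w.repr (LinearMap.toMatrix w w T ⟨k, hk⟩ ⟨k, hk⟩ • w ⟨k, hk⟩) ⟨i, hi⟩ =
      if i = k then LinearMap.toMatrix w w T ⟨i, hi⟩ ⟨k, hk⟩ else 0 := by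
    rw [map_smul, Finsupp.smul_apply, smul_eq_mul]
    by_cases h' : i = k
    · subst h'
      rw [if_pos rfl, heq, mul_one]
    · rw [if_neg h', hne _ _ (by omega), mul_zero]
  have t3 : w.repr (if h : k + 1 < d + 1 then
      LinearMap.toMatrix w w T ⟨k + 1, h⟩ ⟨k, hk⟩ • w ⟨k + 1, h⟩ else 0) ⟨i, hi⟩ =
      if i = k + 1 then LinearMap.toMatrix w w T ⟨i, hi⟩ ⟨k, hk⟩ else 0 := by
    by_cases h : k + 1 < d + 1
    · rw [dif_pos h, map_smul, Finsupp.smul_apply, smul_eq_mul]
      by_cases h' : i = k + 1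
      · subst h'
        rw [if_pos rfl, heq, mul_one]
      · rw [if_neg h', hne _ _ (by omega), mul_zero]
    · rw [dif_neg h, if_neg (by omega)]
      simp
  rw [t1, t2, t3]
  rcases lt_trichotomy i k with h | h | h
  · rw [if_neg (show ¬ i = k by omega), if_neg (show ¬ i = k + 1 by omega), add_zero, add_zero]
    split_ifs with h5
    · rfl
    · exact hT _ _ (Or.inl (by simp; omega))
  · rw [if_neg (show ¬ i + 1 = k by omega), if_neg (show ¬ i = k + 1 by omega), if_pos h]
    simp
  · rw [if_neg (show ¬ i + 1 = k by omega), if_neg (show ¬ i = k by omega), add_zero, zero_add]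
    split_ifs with h5
    · rfl
    · exact hT _ _ (Or.inr (by simp; omega))

/-- A matrix that is tridiagonal in the standard basis and in the eigenbasis of `A` lies in the
span of `I, A, A*, [A, A*], {A, A*}`. -/
lemma shape [IsAlgClosed K] [CharZero K] (hd : 0 < d) (X : Matrix (Fin (d + 1)) (Fin (d + 1)) K)
    (hX : Tri X) (w : Basis (Fin (d + 1)) K (Fin (d + 1) → K)) (v : Fin (d + 1) → K)
    (e f : End K (Fin (d + 1) → K)) (hw : ∀ i : Fin (d + 1), w i = psi f v i)
    (hlast : psi f v (d + 1) = 0)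
    (hA : ∀ n : ℕ, oA K d (psi f v n) = ((d : K) - 2 * n) • psi f v n) (hev : e v = 0)
    (hee : ∀ n : ℕ, e (psi f v (n + 1)) = (((n : K) + 1) * ((d : K) - n)) • psi f v n)
    (hef : oH K d = e + f)
    (hT : Tri (LinearMap.toMatrix w w (Matrix.toLin' X))) :
    ∃ α β γ δ ζ : K, X = combo (mA K d) α β γ δ ζ ∧ (d = 1 → ζ = 0) := by
  set M := LinearMap.toMatrix w w (Matrix.toLin' X) with hM
  set T := Matrix.toLin' X with hTdef
  have hd0 : (d : K) ≠ 0 := by exact_mod_cast hd.ne'
  -- coordinates of eigenvectors of `A`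
  have heig : ∀ (x : Fin (d + 1) → K) (k : ℕ) (hk : k < d + 1),
      oA K d x = ((d : K) - 2 * k) • x → x = w.repr x ⟨k, hk⟩ • psi f v k := by
    intro x k hk hx
    have h1 : oA K d x = ∑ i : Fin (d + 1), (w.repr x i * ((d : K) - 2 * ((i : ℕ) : K))) • w i := by
      conv_lhs => rw [← w.sum_repr x]
      rw [map_sum]
      apply Finset.sum_congr rfl
      intro i _
      rw [map_smul, hw i, hA, smul_smul]
    have h2 : ∀ i, w.repr x i * ((d : K) - 2 * ((i : ℕ) : K)) =
        ((d : K) - 2 * k) * w.repr x i := by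
      intro i
      have h3 := congrArg (fun z => w.repr z i) h1
      rw [hx, map_smul, Finsupp.smul_apply, smul_eq_mul, w.repr_sum_self] at h3
      exact h3.symm
    have h3 : ∀ i : Fin (d + 1), i ≠ ⟨k, hk⟩ → w.repr x i = 0 := by
      intro i hi
      have h4 := h2 i
      have h5 : ((i : ℕ) : K) - (k : K) ≠ 0 := by
        intro h6
        apply hi
        apply Fin.ext
        have h7 := sub_eq_zero.1 h6
        simpa using Nat.cast_injective h7
      have h6 : w.repr x i * (((i : ℕ) : K) - (k : K)) = 0 := by linear_combination (-1 / 2) * h4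
      exact (mul_eq_zero.1 h6).resolve_right h5
    conv_lhs => rw [← w.sum_repr x]
    rw [Finset.sum_eq_single (⟨k, hk⟩ : Fin (d + 1))]
    · rw [hw]
    · intro j _ hj
      rw [h3 j hj, zero_smul]
    · intro h; exact absurd (Finset.mem_univ _) h
  -- psi relations
  have hp0 : psi f v 0 = v := by simp [psi]
  have hb0 : oH K d v = psi f v 1 := by
    have h := f_psi f v 0
    rw [hp0] at h
    rw [hef, LinearMap.add_apply, hev, zero_add]
    exact h
  have hbn : ∀ n, oH K d (psi f v (n + 1)) =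
      (((n : K) + 1) * ((d : K) - n)) • psi f v n + psi f v (n + 2) := by
    intro n
    rw [hef, LinearMap.add_apply, hee, f_psi]
  -- action of T
  have hap := apply_psi w v f T hw hT
  simp only [← hM] at hap
  have hT0 : T v = di M 0 • v + lo M 1 • oH K d v := by
    have h1 := hap 0 (by omega)
    simp only [lt_irrefl, if_false, zero_add, hp0] at h1
    rw [h1, hb0]
  have hTd : T (psi f v d) = di M d • psi f v d + (up M (d - 1) / d) • oH K d (psi f v d) := by
    have h1 := hap d (by omega)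
    rw [if_pos hd, hlast, smul_zero, add_zero] at h1
    obtain ⟨m, rfl⟩ : ∃ m, d = m + 1 := ⟨d - 1, by omega⟩
    have h2 := hbn m
    rw [hlast, add_zero] at h2
    simp only [Nat.add_sub_cancel] at h1 ⊢
    rw [h1, h2, smul_smul]
    have h3 : up M m / ((m + 1 : ℕ) : K) * (((m : K) + 1) * (((m + 1 : ℕ) : K) - m)) = up M m := by
      push_cast at hd0 ⊢
      field_simp
      ring
    rw [h3]
    exact add_comm _ _
  -- the vector of ones
  let one : Fin (d + 1) → K := fun _ => 1
  have hone : oA K d one = ((d : K) - 2 * ((0 : ℕ) : K)) • one := by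
    funext ⟨i, hi⟩
    simp only [oA, LinearMap.add_apply, Pi.add_apply, oE_apply, oF_apply, Pi.smul_apply,
      smul_eq_mul]
    have h1 : ((d : K) - i) * ex one (i + 1) = (d : K) - i := by
      by_cases h : i < d
      · rw [ex_lt _ _ (by omega), mul_one]
      · have : i = d := by omega
        simp [this]
    have h2 : (i : K) * ex one (i - 1) = i := by
      rw [ex_lt _ _ (by omega), mul_one]
    rw [h1, h2]
    simp [one]
  let alt : Fin (d + 1) → K := fun i => (-1) ^ (i : ℕ)
  have halt : oA K d alt = ((d : K) - 2 * (d : K)) • alt := by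
    funext ⟨i, hi⟩
    simp only [oA, LinearMap.add_apply, Pi.add_apply, oE_apply, oF_apply, Pi.smul_apply,
      smul_eq_mul]
    have h1 : ((d : K) - i) * ex alt (i + 1) = -((d : K) - i) * (-1) ^ i := by
      by_cases h : i < d
      · rw [ex_lt _ _ (by omega)]
        simp only [alt]
        ring
      · have : i = d := by omega
        simp [this]
    have h2 : (i : K) * ex alt (i - 1) = -i * (-1) ^ i := by
      match i with
      | 0 => simp
      | (i + 1) =>
        rw [ex_lt _ _ (by omega)]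
        simp only [alt, Nat.add_sub_cancel]
        ring
    rw [h1, h2]
    simp only [alt]
    ring
  have hc := heig one 0 (by omega) hone
  have hc' := heig alt d (by omega) halt
  rw [hp0] at hc
  set c := w.repr one ⟨0, by omega⟩ with hcdef
  set c' := w.repr alt ⟨d, by omega⟩ with hcdef'
  have hTone : T one = di M 0 • one + lo M 1 • oH K d one := by
    rw [hc, map_smul, hT0, map_smul]
    module
  have hTalt : T alt = di M d • alt + (up M (d - 1) / d) • oH K d alt := by
    rw [hc', map_smul, hTd, map_smul]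
    module
  -- coordinates of `T x`
  have hcoord : ∀ (x : Fin (d + 1) → K) (n : ℕ) (hn : n < d + 1),
      T x ⟨n, hn⟩ = lo X n * ex x (n - 1) + di X n * ex x n + up X n * ex x (n + 1) := by
    intro x n hn
    rw [hTdef, Matrix.toLin'_apply, mulVec_tri hX]
  have hup1 : ∀ n, n < d + 1 → ∀ z : ℕ → K, ∀ x : Fin (d + 1) → K,
      (∀ i : Fin (d + 1), x i = z i) → up X n * ex x (n + 1) = up X n * z (n + 1) := by
    intro n hn z x hx
    by_cases h : n + 1 < d + 1
    · rw [ex_lt _ _ h, hx]
    · have : n = d := by omega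
      rw [this, up_last, zero_mul, zero_mul]
  have hlo1 : ∀ n, n < d + 1 → ∀ z : ℕ → K, ∀ x : Fin (d + 1) → K,
      (∀ i : Fin (d + 1), x i = z i) → lo X n * ex x (n - 1) = lo X n * z (n - 1) := by
    intro n hn z x hx
    rw [ex_lt _ _ (by omega), hx]
  have eq1 : ∀ n, n < d + 1 → lo X n + di X n + up X n =
      di M 0 + lo M 1 * ((d : K) - 2 * n) := by
    intro n hn
    have h1 := congrFun hTone ⟨n, hn⟩
    rw [hcoord, hup1 n hn (fun _ => 1) one (fun _ => rfl),
      hlo1 n hn (fun _ => 1) one (fun _ => rfl), ex_lt _ _ hn, Pi.add_apply, Pi.smul_apply,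
      Pi.smul_apply, oH_apply] at h1
    simp only [one, smul_eq_mul, mul_one] at h1
    exact h1
  have eq2 : ∀ n, n < d + 1 → di X n - lo X n - up X n =
      di M d + (up M (d - 1) / d) * ((d : K) - 2 * n) := by
    intro n hn
    have h1 := congrFun hTalt ⟨n, hn⟩
    rw [hcoord, hup1 n hn (fun i => (-1) ^ i) alt (fun _ => rfl),
      hlo1 n hn (fun i => (-1) ^ i) alt (fun _ => rfl), ex_lt _ _ hn, Pi.add_apply, Pi.smul_apply,
      Pi.smul_apply, oH_apply] at h1
    simp only [alt, smul_eq_mul] at h1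
    have h2 : lo X n * (-1 : K) ^ (n - 1) = -lo X n * (-1) ^ n := by
      match n with
      | 0 => simp [lo_zero]
      | (n + 1) => simp only [Nat.add_sub_cancel]; ring
    rw [h2] at h1
    have h3 : ((-1 : K) ^ n) ≠ 0 := pow_ne_zero _ (by norm_num)
    apply mul_right_cancel₀ h3
    linear_combination h1
  -- the quadratic relation
  have eq3 : ∃ t0 t1 t2 : K, (d = 1 → t2 = 0) ∧ ∀ n, n < d + 1 → lo X n - up X n =
      t0 + t1 * ((d : K) - 2 * n) + t2 * ((d : K) - 2 * n) ^ 2 := by
    rcases Nat.lt_or_ge 1 d with hd2 | hd2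
    · have hTb : T (oH K d v) = up M 0 • v + di M 1 • oH K d v +
          lo M 2 • (oH K d (oH K d v) - (d : K) • v) := by
        have h1 := hap 1 (by omega)
        have h2 := hbn 0
        rw [if_pos (by norm_num)] at h1
        simp only [Nat.sub_self, hp0, ← hb0, Nat.cast_zero, zero_add, sub_zero, one_mul] at h1 h2
        rw [h1, h2]
        simp
      have hTb1 : T (oH K d one) = up M 0 • one + di M 1 • oH K d one +
          lo M 2 • (oH K d (oH K d one) - (d : K) • one) := by
        rw [hc, map_smul, map_smul, hTb, map_smul]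
        module
      refine ⟨(up M 0 - lo M 2 * d) / 2, (di M 1 - di M 0) / 2, (lo M 2 - lo M 1) / 2,
        fun h => by omega, ?_⟩
      intro n hn
      have h1 := congrFun hTb1 ⟨n, hn⟩
      rw [hcoord, hup1 n hn (fun i => (d : K) - 2 * i) (oH K d one)
        (fun i => by rw [oH_apply]; simp [one]),
        hlo1 n hn (fun i => (d : K) - 2 * i) (oH K d one)
        (fun i => by rw [oH_apply]; simp [one]), ex_lt _ _ hn] at h1
      simp only [Pi.add_apply, Pi.sub_apply, Pi.smul_apply, oH_apply, one, smul_eq_mul,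
        mul_one] at h1
      have h2 := eq1 n hn
      have h3 : lo X n * ((d : K) - 2 * ((n - 1 : ℕ) : K)) = lo X n * ((d : K) - 2 * n + 2) := by
        match n with
        | 0 => simp [lo_zero]
        | (n + 1) => simp only [Nat.add_sub_cancel]; push_cast; ring
      rw [h3] at h1
      push_cast at h1
      linear_combination (1 / 2) * h1 - (1 / 2) * ((d : K) - 2 * n) * h2
    · obtain rfl : d = 1 := by omega
      refine ⟨(lo X 1 - up X 0) / 2, (-up X 0 - lo X 1) / 2, 0, fun _ => rfl, ?_⟩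
      intro n hn
      have : n = 0 ∨ n = 1 := by omega
      rcases this with rfl | rfl
      · rw [lo_zero]; push_cast; ring
      · have h1 : up X 1 = 0 := up_last X
        rw [h1]; push_cast; ring
  obtain ⟨t0, t1, t2, ht2, eq3⟩ := eq3
  set p := di M 0
  set q := lo M 1
  set p' := di M d
  set q' := up M (d - 1) / d
  have b1 := eq1 0 (by omega)
  have b2 := eq2 0 (by omega)
  have b3 := eq3 0 (by omega)
  have c1 := eq1 d (by omega)
  have c2 := eq2 d (by omega)
  have c3 := eq3 d (by omega)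
  rw [lo_zero] at b1 b2 b3
  rw [up_last] at c1 c2 c3
  push_cast at b1 b2 b3
  refine ⟨(p + p') / 2, -t1, (q + q') / 2, -((q - q') / 2 + t2 * (d - 1)) / 2, -t2 / 2, ?_,
    fun h => by rw [ht2 h]; simp⟩
  apply tri_ext hX (combo_tri Tri_mA _ _ _ _ _)
  · intro n hn
    rw [combo_di mA_di _ _ _ _ _ _ hn]
    linear_combination (1 / 2) * eq1 n hn + (1 / 2) * eq2 n hn
  · intro n hn
    rw [combo_up _ _ _ _ _ _ _ hn, mA_up _ hn]
    have h1 := eq1 n (by omega)
    have h2 := eq2 n (by omega)
    have h3 := eq3 n (by omega)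
    linear_combination (1 / 4) * h1 - (1 / 4) * h2 - (1 / 2) * h3 -
      ((1 / 4) * c1 - (1 / 4) * c2 - (1 / 2) * c3)
  · intro n hn
    rw [combo_lo _ _ _ _ _ _ _ hn, mA_lo _ hn]
    have h1 := eq1 (n + 1) (by omega)
    have h2 := eq2 (n + 1) (by omega)
    have h3 := eq3 (n + 1) (by omega)
    push_cast at h1 h2 h3
    linear_combination (1 / 4) * h1 - (1 / 4) * h2 + (1 / 2) * h3 -
      ((1 / 4) * b1 - (1 / 4) * b2 + (1 / 2) * b3)

end structural

end Pool.Agent.helper48.Leonard
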