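import Mathlib
import Pool.Agent.helper48.LeonardDefs
import Pool.Agent.helper48.LeonardBasic
import Pool.Agent.helper48.LeonardMain

set_option autoImplicit false

/-! Classification of the Leonard triples of `MP_f4f39d_al`. -/

namespace Pool.Agent.helper48.Leonard

open Matrix Module

variable {K : Type*} [Field K] {d : ℕ}

lemma toMatrix_std (M : Matrix (Fin (d + 1)) (Fin (d + 1)) K) :
    LinearMap.toMatrix (Pi.basisFun K (Fin (d + 1))) (Pi.basisFun K (Fin (d + 1)))
      (Matrix.toLin' M) = M := by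
  rw [LinearMap.toMatrix_eq_toMatrix', LinearMap.toMatrix'_toLin']

lemma toLin_combo (α β γ δ ζ : K) :
    Matrix.toLin' (combo (mA K d) α β γ δ ζ) = α • (1 : End K (Fin (d + 1) → K)) + β • oA K d +
      γ • oH K d + δ • (oA K d * oH K d - oH K d * oA K d) +
        ζ • (oA K d * oH K d + oH K d * oA K d) := by
  have hA : Matrix.toLin' (mA K d) = oA K d := toLin_mA
  have hB : Matrix.toLin' (mB K d) = oH K d := toLin_mB
  simp only [combo, map_add, map_smul, map_sub, Matrix.toLin'_mul, Matrix.toLin'_one, hA, hB]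
  rfl

lemma toMatrix_combo (w : Basis (Fin (d + 1)) K (Fin (d + 1) → K))
    (hA : LinearMap.toMatrix w w (oA K d) = mB K d)
    (hB : LinearMap.toMatrix w w (oH K d) = mN K d 1 1) (α β γ δ ζ : K) :
    LinearMap.toMatrix w w (Matrix.toLin' (combo (mA K d) α β γ δ ζ)) =
      combo (mN K d 1 1) α γ β (-δ) ζ := by
  rw [toLin_combo]
  simp only [map_add, map_smul, map_sub, LinearMap.toMatrix_mul, hA, hB,
    LinearMap.toMatrix_one, combo]
  module

lemma mB_inj [CharZero K] : Function.Injective (fun i : Fin (d + 1) => (d : K) - 2 * ((i : ℕ) : K)) := by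
  intro i j hij
  simp only at hij
  have h1 : ((i : ℕ) : K) = ((j : ℕ) : K) := by linear_combination (-1 / 2) * hij
  exact Fin.ext (by exact_mod_cast h1)

/-- The classification, forward direction for `d ≥ 1`. -/
lemma forward [IsAlgClosed K] [CharZero K] (hd : 0 < d) (X : Matrix (Fin (d + 1)) (Fin (d + 1)) K)
    (h : IsLeonardTriple K (Matrix.toLin' (mA K d)) (Matrix.toLin' (mB K d)) (Matrix.toLin' X)) :
    (∃ α β γ δ : K, X = combo (mA K d) α β γ δ 0 ∧ β ^ 2 ≠ 4 * δ ^ 2 ∧ γ ^ 2 ≠ 4 * δ ^ 2 ∧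
      β ^ 2 + γ ^ 2 ≠ 4 * δ ^ 2) ∨
    (d = 2 ∧ ∃ α δ ζ : K, X = combo (mA K d) α 0 0 δ ζ ∧ δ ^ 2 ≠ ζ ^ 2) := by
  obtain ⟨hLA, hLB, hLX⟩ := h
  have hAirr : IrredTridiagonal (mA K d) := mA_irred
  -- `X` is irreducible tridiagonal in the standard basis
  have hX : IrredTridiagonal X := by
    have := transfer (Pi.basisFun K (Fin (d + 1))) (Matrix.toLin' (mB K d))
      (Matrix.toLin' (mA K d)) (Matrix.toLin' X) _ mB_inj (by rw [toMatrix_std]; rfl)
      (by rw [toMatrix_std]; exact hAirr) hLB.swap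
    rwa [toMatrix_std] at this
  obtain ⟨w, v, e, f, h1, h2, h3, h4, h5, h6, h7, h8⟩ := A_basis (K := K) (d := d)
  have hA : Matrix.toLin' (mA K d) = oA K d := toLin_mA
  have hB : Matrix.toLin' (mB K d) = oH K d := toLin_mB
  have hNirr : IrredTridiagonal (mN K d 1 1) := mN_irred one_ne_zero one_ne_zero
  have hXw : IrredTridiagonal (LinearMap.toMatrix w w (Matrix.toLin' X)) := by
    apply transfer w (oA K d) (oH K d) (Matrix.toLin' X) _ mB_inj
      (by rw [h7]; rfl) (by rw [h8]; exact hNirr)
    rw [← hA, ← hB]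
    exact hLA
  obtain ⟨α, β, γ, δ, ζ, rfl, hζ1⟩ := shape hd X hX.tri w v e f h1 h2 h3 h4 h5 h6 hXw.tri
  -- the two product formulas
  have hk1 := key (Pi.basisFun K (Fin (d + 1))) (oH K d)
    (Matrix.toLin' (combo (mA K d) α β γ δ ζ)) (oA K d) (by rw [← hB, toMatrix_std])
    (by rw [toMatrix_std]; exact hX) α γ
    (by rw [toMatrix_std]; intro n hn; exact combo_di mA_di _ _ _ _ _ _ hn) hd
    (by rw [← hA, ← hB]; exact hLX.swap)
  rw [toMatrix_std] at hk1
  obtain ⟨D, hD, hprod⟩ := hk1
  have hk2 := key w (oA K d)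
    (Matrix.toLin' (combo (mA K d) α β γ δ ζ)) (oH K d) h7 hXw α β
    (by rw [toMatrix_combo w h7 h8]; intro n hn
        exact combo_di (mN_di 1 1) _ _ _ _ _ _ hn) hd
    (by rw [← hA, ← hB]; exact hLX)
  rw [toMatrix_combo w h7 h8] at hk2
  obtain ⟨D', hD', hprod'⟩ := hk2
  rw [toMatrix_combo w h7 h8] at hXw
  have hcast : ∀ n : ℕ, n + 1 < d + 1 → ((d : K) - n) * ((n : K) + 1) ≠ 0 := by
    intro n hn
    have h1 : ((n : ℕ) : K) ≠ (d : K) := by
      intro h; have := Nat.cast_injective h; omega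
    have h2 : ((n : K) + 1) ≠ 0 := by exact_mod_cast Nat.succ_ne_zero n
    exact mul_ne_zero (sub_ne_zero.2 h1.symm) h2
  have P : ∀ n : ℕ, n + 1 < d + 1 →
      (β + ζ * (2 * (d : K) - 4 * n - 2)) ^ 2 - 4 * δ ^ 2 = D ^ 2 - γ ^ 2 := by
    intro n hn
    have h9 := hprod n hn
    rw [combo_up _ _ _ _ _ _ _ hn, combo_lo _ _ _ _ _ _ _ hn, mA_up _ hn, mA_lo _ hn] at h9
    apply mul_left_cancel₀ (hcast n hn)
    linear_combination h9
  have P' : ∀ n : ℕ, n + 1 < d + 1 →
      (γ + ζ * (2 * (d : K) - 4 * n - 2)) ^ 2 - 4 * δ ^ 2 = D' ^ 2 - β ^ 2 := by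
    intro n hn
    have h9 := hprod' n hn
    rw [combo_up _ _ _ _ _ _ _ hn, combo_lo _ _ _ _ _ _ _ hn, mN_up _ _ _ hn,
      mN_lo _ _ _ hn] at h9
    apply mul_left_cancel₀ (hcast n hn)
    linear_combination h9
  have N1 : (β - 2 * δ + ζ * (2 * (d : K) - 4 * (0 : ℕ) - 2)) ≠ 0 := by
    have h9 := hX.up_ne (n := 0) (by omega)
    rw [combo_up _ _ _ _ _ _ _ (by omega)] at h9
    exact right_ne_zero_of_mul h9
  have N2 : (β + 2 * δ + ζ * (2 * (d : K) - 4 * (0 : ℕ) - 2)) ≠ 0 := by
    have h9 := hX.lo_ne (n := 0 + 1) (by omega) (by omega)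
    rw [combo_lo _ _ _ _ _ _ _ (by omega)] at h9
    exact right_ne_zero_of_mul h9
  have N3 : (γ - 2 * -δ + ζ * (2 * (d : K) - 4 * (0 : ℕ) - 2)) ≠ 0 := by
    have h9 := hXw.up_ne (n := 0) (by omega)
    rw [combo_up _ _ _ _ _ _ _ (by omega)] at h9
    exact right_ne_zero_of_mul h9
  have N4 : (γ + 2 * -δ + ζ * (2 * (d : K) - 4 * (0 : ℕ) - 2)) ≠ 0 := by
    have h9 := hXw.lo_ne (n := 0 + 1) (by omega) (by omega)
    rw [combo_lo _ _ _ _ _ _ _ (by omega)] at h9
    exact right_ne_zero_of_mul h9
  by_cases hζ : ζ = 0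
  · subst hζ
    left
    refine ⟨α, β, γ, δ, rfl, ?_, ?_, ?_⟩
    · intro h10
      have : (β - 2 * δ + 0 * (2 * (d : K) - 4 * (0 : ℕ) - 2)) *
          (β + 2 * δ + 0 * (2 * (d : K) - 4 * (0 : ℕ) - 2)) = 0 := by linear_combination h10
      exact (mul_ne_zero N1 N2) this
    · intro h10
      have : (γ - 2 * -δ + 0 * (2 * (d : K) - 4 * (0 : ℕ) - 2)) *
          (γ + 2 * -δ + 0 * (2 * (d : K) - 4 * (0 : ℕ) - 2)) = 0 := by linear_combination h10
      exact (mul_ne_zero N3 N4) this
    · intro h10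
      have h11 := P 0 (by omega)
      have : D ^ 2 = 0 := by linear_combination h10 - h11
      exact hD (by simpa using this)
  · right
    have hd2 : 2 ≤ d := by
      by_contra hlt
      exact hζ (hζ1 (by omega))
    have e1 : ζ * (2 * β + ζ * (4 * (d : K) - 8)) = 0 := by
      have q0 := P 0 (by omega)
      have q1 := P 1 (by omega)
      push_cast at q0 q1
      linear_combination (1 / 4) * q0 - (1 / 4) * q1
    have e1' : ζ * (2 * γ + ζ * (4 * (d : K) - 8)) = 0 := by
      have q0 := P' 0 (by omega)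
      have q1 := P' 1 (by omega)
      push_cast at q0 q1
      linear_combination (1 / 4) * q0 - (1 / 4) * q1
    have e2 := (mul_eq_zero.1 e1).resolve_left hζ
    have e2' := (mul_eq_zero.1 e1').resolve_left hζ
    have hd3 : d = 2 := by
      by_contra hne
      have e3 : ζ * (2 * β + ζ * (4 * (d : K) - 16)) = 0 := by
        have q0 := P 1 (by omega)
        have q1 := P 2 (by omega)
        push_cast at q0 q1
        linear_combination (1 / 4) * q0 - (1 / 4) * q1
      have e4 := (mul_eq_zero.1 e3).resolve_left hζ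
      apply hζ
      linear_combination (1 / 8) * e2 - (1 / 8) * e4
    subst hd3
    push_cast at e2 e2'
    have hβ : β = 0 := by linear_combination (1 / 2) * e2
    have hγ : γ = 0 := by linear_combination (1 / 2) * e2'
    subst hβ hγ
    refine ⟨rfl, α, δ, ζ, rfl, ?_⟩
    intro h10
    have h11 := P 0 (by omega)
    push_cast at h11
    have : D ^ 2 = 0 := by linear_combination (-4) * h10 - h11
    exact hD (by simpa using this)

/-- Family 1 consists of Leonard triples. -/
lemma backward1 [IsAlgClosed K] [CharZero K] (α β γ δ : K) (h1 : β ^ 2 ≠ 4 * δ ^ 2)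
    (h2 : γ ^ 2 ≠ 4 * δ ^ 2) (h3 : β ^ 2 + γ ^ 2 ≠ 4 * δ ^ 2) :
    IsLeonardTriple K (Matrix.toLin' (mA K d)) (Matrix.toLin' (mB K d))
      (Matrix.toLin' (combo (mA K d) α β γ δ 0)) := by
  have hA : Matrix.toLin' (mA K d) = oA K d := toLin_mA
  have hB : Matrix.toLin' (mB K d) = oH K d := toLin_mB
  have ne1 : β - 2 * δ ≠ 0 := fun h => h1 (by linear_combination (β + 2 * δ) * h)
  have ne2 : β + 2 * δ ≠ 0 := fun h => h1 (by linear_combination (β - 2 * δ) * h)
  have ne3 : γ - 2 * δ ≠ 0 := fun h => h2 (by linear_combination (γ + 2 * δ) * h)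
  have ne4 : γ + 2 * δ ≠ 0 := fun h => h2 (by linear_combination (γ - 2 * δ) * h)
  obtain ⟨w, v, e, f, -, -, -, -, -, -, h7, h8⟩ := A_basis (K := K) (d := d)
  refine ⟨?_, ?_, ?_⟩
  · refine ⟨d + 1, w, ?_, ?_, ?_⟩
    · rw [hA, h7]
      exact Matrix.isDiag_diagonal _
    · rw [hB, h8]
      exact mN_irred one_ne_zero one_ne_zero
    · rw [toMatrix_combo w h7 h8]
      apply combo_irred (mN_irred one_ne_zero one_ne_zero)
      · intro n _ h
        apply ne4
        linear_combination h
      · intro n _ h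
        apply ne3
        linear_combination h
  · refine ⟨d + 1, Pi.basisFun K (Fin (d + 1)), ?_, ?_, ?_⟩
    · rw [toMatrix_std]
      exact Matrix.isDiag_diagonal _
    · rw [toMatrix_std]
      apply combo_irred mA_irred
      · intro n _ h
        apply ne1
        linear_combination h
      · intro n _ h
        apply ne2
        linear_combination h
    · rw [toMatrix_std]
      exact mA_irred
  · obtain ⟨s, hs⟩ := IsAlgClosed.exists_pow_nat_eq (β ^ 2 + γ ^ 2 - 4 * δ ^ 2) (n := 2) (by norm_num)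
    have hs2 : s ^ 2 ≠ 0 := by
      rw [hs]
      exact sub_ne_zero.2 h3
    have hs0 : s ≠ 0 := fun h => hs2 (by rw [h]; ring)
    obtain ⟨w, hw1, hw2, hw3⟩ := good_basis (K := K) (d := d) (β / s) (γ / s) (2 * δ / s)
      (by field_simp; linear_combination -hs)
      (by
        intro h
        rw [div_pow, div_eq_one_iff_eq hs2, hs] at h
        exact h2 (by linear_combination -h))
      (by
        intro h
        rw [div_pow, div_eq_one_iff_eq hs2, hs] at h
        exact h1 (by linear_combination -h))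
    refine ⟨d + 1, w, ?_, ?_, ?_⟩
    · have h9 : Matrix.toLin' (combo (mA K d) α β γ δ 0) = α • (1 : End K (Fin (d + 1) → K)) +
          s • ((β / s) • oA K d + (γ / s) • oH K d + (2 * δ / s) • oY K d) := by
        rw [toLin_combo, rAB]
        match_scalars <;> field_simp
      rw [h9, map_add, map_smul, map_smul, hw1, LinearMap.toMatrix_one, mB]
      intro i j hij
      simp [Matrix.diagonal_apply_ne _ hij, Matrix.one_apply_ne hij]
    · rw [hA]; exact hw2
    · rw [hB]; exact hw3

/-- The basis formed by the columns of an invertible matrix. -/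
lemma exists_basis_of_det_ne_zero {n : ℕ} (P : Matrix (Fin (n + 1)) (Fin (n + 1)) K)
    (hP : P.det ≠ 0) :
    ∃ w : Basis (Fin (n + 1)) K (Fin (n + 1) → K),
      ∀ M M' : Matrix (Fin (n + 1)) (Fin (n + 1)) K, M * P = P * M' →
        LinearMap.toMatrix w w (Matrix.toLin' M) = M' := by
  have hli := Matrix.linearIndependent_cols_of_det_ne_zero hP
  let w := basisOfLinearIndependentOfCardEqFinrank hli (by simp)
  have hw : ∀ j, w j = P.col j := fun j => by
    simp [w, coe_basisOfLinearIndependentOfCardEqFinrank]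
  refine ⟨w, fun M M' h => ?_⟩
  ext i j
  rw [LinearMap.toMatrix_apply, Matrix.toLin'_apply, hw]
  have h1 : M.mulVec (P.col j) = ∑ k, M' k j • w k := by
    funext l
    have h2 := congrFun (congrFun h l) j
    rw [Matrix.mul_apply, Matrix.mul_apply] at h2
    rw [Matrix.mulVec, dotProduct, Finset.sum_apply]
    simp only [Matrix.col_apply, Pi.smul_apply, hw, smul_eq_mul]
    rw [h2]
    apply Finset.sum_congr rfl
    intro k _
    ring
  rw [h1, w.repr_sum_self]

/-- Family 2 (only for `d = 2`) consists of Leonard triples. -/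
lemma backward2 [IsAlgClosed K] [CharZero K] (α δ ζ : K) (h1 : δ ^ 2 ≠ ζ ^ 2) :
    IsLeonardTriple K (Matrix.toLin' (mA K 2)) (Matrix.toLin' (mB K 2))
      (Matrix.toLin' (combo (mA K 2) α 0 0 δ ζ)) := by
  have hA : Matrix.toLin' (mA K 2) = oA K 2 := toLin_mA
  have hB : Matrix.toLin' (mB K 2) = oH K 2 := toLin_mB
  have hp : ζ - δ ≠ 0 := fun h => h1 (by linear_combination (-(ζ + δ)) * h)
  have hq : ζ + δ ≠ 0 := fun h => h1 (by linear_combination (δ - ζ) * h)
  obtain ⟨w, v, e, f, -, -, -, -, -, -, h7, h8⟩ := A_basis (K := K) (d := 2)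
  have hcases : ∀ n : ℕ, n + 1 < 2 + 1 → n = 0 ∨ n = 1 := by omega
  refine ⟨?_, ?_, ?_⟩
  · refine ⟨2 + 1, w, ?_, ?_, ?_⟩
    · rw [hA, h7]
      exact Matrix.isDiag_diagonal _
    · rw [hB, h8]
      exact mN_irred one_ne_zero one_ne_zero
    · rw [toMatrix_combo w h7 h8]
      apply combo_irred (mN_irred one_ne_zero one_ne_zero)
      · intro n hn h
        rcases hcases n hn with rfl | rfl
        · push_cast at h
          exact hq (by linear_combination (1 / 2) * h)
        · push_cast at h
          exact hp (by linear_combination (-1 / 2) * h)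
      · intro n hn h
        rcases hcases n hn with rfl | rfl
        · push_cast at h
          exact hp (by linear_combination (1 / 2) * h)
        · push_cast at h
          exact hq (by linear_combination (-1 / 2) * h)
  · refine ⟨2 + 1, Pi.basisFun K (Fin (2 + 1)), ?_, ?_, ?_⟩
    · rw [toMatrix_std]
      exact Matrix.isDiag_diagonal _
    · rw [toMatrix_std]
      apply combo_irred mA_irred
      · intro n hn h
        rcases hcases n hn with rfl | rfl
        · push_cast at h
          exact hp (by linear_combination (1 / 2) * h)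
        · push_cast at h
          exact hq (by linear_combination (-1 / 2) * h)
      · intro n hn h
        rcases hcases n hn with rfl | rfl
        · push_cast at h
          exact hq (by linear_combination (1 / 2) * h)
        · push_cast at h
          exact hp (by linear_combination (-1 / 2) * h)
    · rw [toMatrix_std]
      exact mA_irred
  · -- explicit eigenbasis
    obtain ⟨r, hr⟩ := IsAlgClosed.exists_pow_nat_eq ((ζ - δ) * (ζ + δ)) (n := 2) (by norm_num)
    have hr0 : r ≠ 0 := by
      intro h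
      rw [h] at hr
      exact (mul_ne_zero hp hq) (by rw [← hr]; ring)
    set p := ζ - δ with hpdef
    set q := ζ + δ with hqdef
    have hA3 : mA K 2 = !![0, 2, 0; 1, 0, 1; 0, 2, 0] := by
      ext i j
      fin_cases i <;> fin_cases j <;> simp [mA] <;> norm_num
    have hB3 : mB K 2 = !![2, 0, 0; 0, 0, 0; 0, 0, -2] := by
      ext i j
      fin_cases i <;> fin_cases j <;> simp [mB] <;> norm_num
    have hX3 : combo (mA K 2) α 0 0 δ ζ =
        !![α, 4 * p, 0; 2 * q, α, -2 * q; 0, -4 * p, α] := by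
      ext i j
      fin_cases i <;> fin_cases j <;> simp [combo_apply, mA, hpdef, hqdef] <;> ring
    let P : Matrix (Fin (2 + 1)) (Fin (2 + 1)) K := !![p, 1, p; r, 0, -r; -p, 1, -p]
    have hdet : P.det ≠ 0 := by
      have h9 : P.det = 4 * (p * r) := by
        rw [Matrix.det_fin_three P]
        simp [P]
        ring
      rw [h9]
      exact mul_ne_zero (by norm_num) (mul_ne_zero hp hr0)
    obtain ⟨w, hw⟩ := exists_basis_of_det_ne_zero P hdet
    refine ⟨2 + 1, w, ?_, ?_, ?_⟩
    · rw [hw _ (Matrix.diagonal ![α + 4 * r, α, α - 4 * r])]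
      · exact Matrix.isDiag_diagonal _
      · rw [hX3]
        ext i j
        fin_cases i <;> fin_cases j <;> simp [P, Matrix.mul_apply, Fin.sum_univ_three] <;>
          first | ring1 | linear_combination 4 * hr | linear_combination -4 * hr
    · rw [hw _ !![0, 1 / r, 0; 2 * r, 0, -2 * r; 0, -1 / r, 0]]
      · refine ⟨?_, ?_⟩
        · intro i j hij
          fin_cases i <;> fin_cases j <;> simp at hij ⊢
        · intro i j hij
          fin_cases i <;> fin_cases j <;> simp [hr0] at hij ⊢
      · rw [hA3]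
        ext i j
        fin_cases i <;> fin_cases j <;> simp [P, Matrix.mul_apply, Fin.sum_univ_three] <;>
          field_simp <;> ring
    · rw [hw _ !![0, 1 / p, 0; 2 * p, 0, 2 * p; 0, 1 / p, 0]]
      · refine ⟨?_, ?_⟩
        · intro i j hij
          fin_cases i <;> fin_cases j <;> simp at hij ⊢
        · intro i j hij
          fin_cases i <;> fin_cases j <;> simp [hp] at hij ⊢
      · rw [hB3]
        ext i j
        fin_cases i <;> fin_cases j <;> simp [P, Matrix.mul_apply, Fin.sum_univ_three] <;>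
          field_simp <;> ring

end Pool.Agent.helper48.Leonard
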